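import Pool.Agent.CycLat.Norm

/-! # CycLat, module Lower: the determinant bound -/

open Matrix

namespace CycLat

theorem crit_nonneg {d : ℕ} (F : (Fin d → ℝ) → ℝ) : 0 ≤ crit F := by
  unfold crit
  refine Real.sInf_nonneg ?_
  rintro x ⟨M, -, -, rfl⟩
  exact abs_nonneg _

theorem crit_le_of {d : ℕ} (F : (Fin d → ℝ) → ℝ) (M : Matrix (Fin d) (Fin d) ℝ)
    (hM : M.det ≠ 0) (h : ∀ z : Fin d → ℤ, z ≠ 0 → 1 ≤ F (toR z ᵥ* M)) : crit F ≤ |M.det| := by
  unfold crit
  refine csInf_le ⟨0, ?_⟩ ⟨M, hM, h, rfl⟩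
  rintro x ⟨M, -, -, rfl⟩
  exact abs_nonneg _

/-- The relation lattice has a basis matrix of determinant at most `n`. -/
theorem exists_basis_matrix {d : ℕ} (n : ℕ) (hn : 1 ≤ n) (b : Fin d → ℤ) :
    ∃ B : Matrix (Fin d) (Fin d) ℤ, B.det ≠ 0 ∧ |B.det| ≤ n ∧
      ∀ z : Fin d → ℤ, (n : ℤ) ∣ ∑ i, (z ᵥ* B) i * b i := by
  haveI : NeZero n := ⟨by omega⟩
  let φ : (Fin d → ℤ) →ₗ[ℤ] ZMod n :=
    { toFun := fun w => ((∑ i, w i * b i : ℤ) : ZMod n)
      map_add' := by
        intro x y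
        rw [← Int.cast_add, ← Finset.sum_add_distrib]
        simp only [Pi.add_apply, add_mul]
      map_smul' := by
        intro c x
        simp only [Pi.smul_apply, smul_eq_mul, eq_intCast, Int.cast_id, zsmul_eq_mul]
        rw [← Int.cast_mul, Finset.mul_sum]
        simp only [mul_assoc] }
  have hcard : Nat.card ((Fin d → ℤ) ⧸ LinearMap.ker φ) = Nat.card (LinearMap.range φ) :=
    Nat.card_congr (LinearMap.quotKerEquivRange φ).toEquiv
  have hle : Nat.card (LinearMap.range φ) ≤ n := by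
    have := Nat.card_le_card_of_injective (fun x : LinearMap.range φ => (x : ZMod n))
      Subtype.val_injective
    rwa [Nat.card_zmod] at this
  have hpos : 0 < Nat.card (LinearMap.range φ) := Nat.card_pos
  have hidx : (LinearMap.ker φ).toAddSubgroup.index ≠ 0 := by
    have : (LinearMap.ker φ).toAddSubgroup.index = Nat.card ((Fin d → ℤ) ⧸ LinearMap.ker φ) := rfl
    rw [this, hcard]
    exact hpos.ne'
  obtain ⟨e⟩ := (Int.submodule_toAddSubgroup_index_ne_zero_iff).1 hidx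
  let bN : Module.Basis (Fin d) ℤ (LinearMap.ker φ) := Module.Basis.ofEquivFun e
  have hdet := Submodule.natAbs_det_basis_change (Pi.basisFun ℤ (Fin d)) (LinearMap.ker φ) bN
  rw [hcard] at hdet
  let B : Matrix (Fin d) (Fin d) ℤ := Matrix.of (fun i => ((bN i : LinearMap.ker φ) : Fin d → ℤ))
  have hB : (Pi.basisFun ℤ (Fin d)).det ((↑) ∘ bN) = B.det := by
    rw [Pi.basisFun_det_apply]
    rfl
  rw [hB] at hdet
  refine ⟨B, ?_, ?_, ?_⟩
  · intro h0
    rw [h0] at hdet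
    simp only [Int.natAbs_zero] at hdet
    omega
  · rw [Int.abs_eq_natAbs, hdet]
    exact_mod_cast hle
  · intro z
    have hz : z ᵥ* B = ((∑ i, z i • bN i : LinearMap.ker φ) : Fin d → ℤ) := by
      ext j
      simp [Matrix.vecMul, dotProduct, B]
    have hmem : φ (z ᵥ* B) = 0 := by
      rw [hz]
      exact (∑ i, z i • bN i : LinearMap.ker φ).2
    exact (ZMod.intCast_zmod_eq_zero_iff_dvd _ n).1 hmem

/-- The lattice `{w : n ∣ w · b}` has index `k ≤ n` in `ℤ^d` (it is the kernel of a homomorphism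
to `ZMod n`), hence a basis, the rows of an integer matrix `B` with `|det B| = k ≤ n`; `M = B / T`
is in the set defining `crit F`. -/
theorem lower {d : ℕ} {F : (Fin d → ℝ) → ℝ} (hF : IsNorm F) (n : ℕ) (hn : 1 ≤ n)
    (b : Fin d → ℤ) (T : ℝ) (hT : 0 < T) (h : Adm F n b T) : crit F * T ^ d ≤ n := by
  obtain ⟨B, hB0, hBn, hBd⟩ := exists_basis_matrix n hn b
  have hdetR : ((B.map (Int.cast : ℤ → ℝ))).det = (B.det : ℝ) := by
    rw [Int.cast_det]
  have hMdet : ((T⁻¹ : ℝ) • B.map (Int.cast : ℤ → ℝ)).det = (T⁻¹) ^ d * (B.det : ℝ) := by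
    rw [Matrix.det_smul, hdetR, Fintype.card_fin]
  have hTd : 0 < T ^ d := pow_pos hT d
  have h1 : crit F ≤ |((T⁻¹ : ℝ) • B.map (Int.cast : ℤ → ℝ)).det| := by
    apply crit_le_of
    · rw [hMdet]
      exact mul_ne_zero (pow_ne_zero _ (inv_ne_zero hT.ne')) (by exact_mod_cast hB0)
    · intro z hz
      have hvec : toR z ᵥ* ((T⁻¹ : ℝ) • B.map (Int.cast : ℤ → ℝ)) = T⁻¹ • toR (z ᵥ* B) := by
        ext j
        simp only [Matrix.vecMul, dotProduct, toR, Matrix.smul_apply, Matrix.map_apply,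
          smul_eq_mul, Pi.smul_apply, Int.cast_sum, Int.cast_mul, Finset.mul_sum]
        exact Finset.sum_congr rfl (fun i _ => by ring)
      rw [hvec, hF.smul, abs_of_pos (inv_pos.2 hT)]
      have hne : z ᵥ* B ≠ 0 := by
        intro h0
        exact hz ((Matrix.eq_zero_of_vecMul_eq_zero hB0) h0)
      have h2 := h _ hne (hBd z)
      rw [inv_mul_eq_div, le_div_iff₀ hT, one_mul]
      exact h2
  rw [hMdet, abs_mul, abs_of_pos (pow_pos (inv_pos.2 hT) d)] at h1
  have h3 : |(B.det : ℝ)| ≤ n := by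
    have : ((|B.det| : ℤ) : ℝ) ≤ n := by exact_mod_cast hBn
    rwa [Int.cast_abs] at this
  calc crit F * T ^ d ≤ (T⁻¹ ^ d * |(B.det : ℝ)|) * T ^ d :=
        mul_le_mul_of_nonneg_right h1 hTd.le
    _ = |(B.det : ℝ)| := by
        rw [inv_pow]; field_simp
    _ ≤ n := h3

end CycLat
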