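import Pool.Agent.CycLat.Def

/-! # CycLat, module Norm: elementary facts on norms on `ℝ^d` -/

open Matrix

namespace CycLat

variable {d : ℕ}

theorem IsNorm.zero {F : (Fin d → ℝ) → ℝ} (hF : IsNorm F) : F 0 = 0 := by
  have := hF.smul 0 0
  simpa using this

theorem IsNorm.nonneg {F : (Fin d → ℝ) → ℝ} (hF : IsNorm F) (x : Fin d → ℝ) : 0 ≤ F x := by
  by_cases h : x = 0
  · rw [h, hF.zero]
  · exact (hF.pos x h).le

theorem IsNorm.sum_le {F : (Fin d → ℝ) → ℝ} (hF : IsNorm F) {ι : Type*} (s : Finset ι)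
    (f : ι → Fin d → ℝ) : F (∑ i ∈ s, f i) ≤ ∑ i ∈ s, F (f i) := by
  classical
  induction s using Finset.induction_on with
  | empty => simp [hF.zero]
  | insert a s ha ih =>
    rw [Finset.sum_insert ha, Finset.sum_insert ha]
    exact (hF.add_le _ _).trans (by linarith)

/-- equivalence with the sup norm (`‖x‖` is the sup norm of `Fin d → ℝ`). -/
theorem IsNorm.bounds {F : (Fin d → ℝ) → ℝ} (hF : IsNorm F) :
    ∃ c C : ℝ, 0 < c ∧ 0 < C ∧ ∀ x, c * ‖x‖ ≤ F x ∧ F x ≤ C * ‖x‖ := by
  classical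
  set C : ℝ := 1 + ∑ i : Fin d, F (Pi.single i 1) with hC
  have hC1 : 1 ≤ C := by
    have : 0 ≤ ∑ i : Fin d, F (Pi.single i 1) := Finset.sum_nonneg fun i _ => hF.nonneg _
    linarith
  have hup : ∀ x, F x ≤ C * ‖x‖ := by
    intro x
    have e1 : x = ∑ i, x i • (Pi.single i (1 : ℝ) : Fin d → ℝ) := by
      ext j
      simp [Finset.sum_apply, Pi.single_apply]
    calc F x = F (∑ i, x i • (Pi.single i (1 : ℝ) : Fin d → ℝ)) := by rw [← e1]
      _ ≤ ∑ i, F (x i • (Pi.single i (1 : ℝ) : Fin d → ℝ)) := hF.sum_le _ _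
      _ = ∑ i, |x i| * F (Pi.single i 1) := by simp only [hF.smul]
      _ ≤ ∑ i, ‖x‖ * F (Pi.single i 1) :=
          Finset.sum_le_sum fun i _ => mul_le_mul_of_nonneg_right (norm_le_pi_norm x i) (hF.nonneg _)
      _ = (∑ i, F (Pi.single i 1)) * ‖x‖ := by rw [← Finset.mul_sum]; ring
      _ ≤ C * ‖x‖ := by
          apply mul_le_mul_of_nonneg_right _ (norm_nonneg _)
          rw [hC]; linarith
  have hneg : ∀ x, F (-x) = F x := fun x => by
    have := hF.smul (-1) x
    simpa using this
  have hlip : ∀ x y, |F x - F y| ≤ C * ‖x - y‖ := by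
    intro x y
    rw [abs_le]
    have h1 := hF.add_le (x - y) y
    have h2 := hF.add_le (y - x) x
    have h3 := hup (x - y)
    have h4 := hneg (x - y)
    rw [sub_add_cancel] at h1 h2
    rw [neg_sub] at h4
    constructor <;> linarith
  have hcont : Continuous F := by
    have : LipschitzWith (Real.toNNReal C) F := by
      apply LipschitzWith.of_dist_le_mul
      intro x y
      rw [Real.dist_eq, dist_eq_norm, Real.coe_toNNReal C (by linarith)]
      exact hlip x y
    exact this.continuous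
  rcases (Metric.sphere (0 : Fin d → ℝ) 1).eq_empty_or_nonempty with he | hne
  · refine ⟨1, C, one_pos, by linarith, fun x => ⟨?_, hup x⟩⟩
    have hx : x = 0 := by
      by_contra hx
      have : (‖x‖⁻¹ • x) ∈ Metric.sphere (0 : Fin d → ℝ) 1 := by
        rw [mem_sphere_zero_iff_norm, norm_smul, norm_inv, norm_norm,
          inv_mul_cancel₀ (norm_ne_zero_iff.2 hx)]
      rw [he] at this
      exact this
    rw [hx, hF.zero, norm_zero, mul_zero]
  · obtain ⟨y, hy, hmin⟩ := (isCompact_sphere (0 : Fin d → ℝ) 1).exists_isMinOn hne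
      hcont.continuousOn
    have hy1 : ‖y‖ = 1 := by simpa using hy
    have hy0 : y ≠ 0 := by
      rintro rfl
      rw [norm_zero] at hy1
      exact zero_ne_one hy1
    refine ⟨F y, C, hF.pos y hy0, by linarith, fun x => ⟨?_, hup x⟩⟩
    by_cases hx : x = 0
    · rw [hx, hF.zero, norm_zero, mul_zero]
    · have hx' : 0 < ‖x‖ := norm_pos_iff.2 hx
      have hm : (‖x‖⁻¹ • x) ∈ Metric.sphere (0 : Fin d → ℝ) 1 := by
        rw [mem_sphere_zero_iff_norm, norm_smul, norm_inv, norm_norm,
          inv_mul_cancel₀ (norm_ne_zero_iff.2 hx)]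
      have h1 : F y ≤ F (‖x‖⁻¹ • x) := hmin hm
      rw [hF.smul, abs_of_pos (inv_pos.2 hx')] at h1
      calc F y * ‖x‖ ≤ (‖x‖⁻¹ * F x) * ‖x‖ := mul_le_mul_of_nonneg_right h1 hx'.le
        _ = F x := by field_simp

theorem isNorm_l1 : IsNorm (l1 : (Fin d → ℝ) → ℝ) := by
  refine ⟨fun x y => ?_, fun t x => ?_, fun x hx => ?_⟩
  · simp only [l1, Pi.add_apply]
    rw [← Finset.sum_add_distrib]
    exact Finset.sum_le_sum fun i _ => abs_add_le _ _
  · simp only [l1, Pi.smul_apply, smul_eq_mul, abs_mul]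
    rw [Finset.mul_sum]
  · obtain ⟨i, hi⟩ := Function.ne_iff.1 hx
    simp only [l1]
    exact Finset.sum_pos' (fun i _ => abs_nonneg _) ⟨i, Finset.mem_univ _, abs_pos.2 hi⟩

theorem isNorm_sx : IsNorm (sx : (Fin d → ℝ) → ℝ) := by
  refine ⟨fun x y => ?_, fun t x => ?_, fun x hx => ?_⟩
  · simp only [sx, Pi.add_apply]
    apply max_le
    · calc ∑ i, max (x i + y i) 0 ≤ ∑ i, (max (x i) 0 + max (y i) 0) := by
            apply Finset.sum_le_sum
            intro i _
            apply max_le
            · exact add_le_add (le_max_left _ _) (le_max_left _ _)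
            · exact add_nonneg (le_max_right _ _) (le_max_right _ _)
        _ = ∑ i, max (x i) 0 + ∑ i, max (y i) 0 := Finset.sum_add_distrib
        _ ≤ _ := add_le_add (le_max_left _ _) (le_max_left _ _)
    · calc ∑ i, max (-(x i + y i)) 0 ≤ ∑ i, (max (-x i) 0 + max (-y i) 0) := by
            apply Finset.sum_le_sum
            intro i _
            apply max_le
            · rw [neg_add]
              exact add_le_add (le_max_left _ _) (le_max_left _ _)
            · exact add_nonneg (le_max_right _ _) (le_max_right _ _)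
        _ = ∑ i, max (-x i) 0 + ∑ i, max (-y i) 0 := Finset.sum_add_distrib
        _ ≤ _ := add_le_add (le_max_right _ _) (le_max_right _ _)
  · simp only [sx, Pi.smul_apply, smul_eq_mul]
    rcases le_total 0 t with ht | ht
    · rw [abs_of_nonneg ht]
      have e1 : ∀ s : ℝ, max (t * s) 0 = t * max s 0 := fun s => by
        rw [mul_max_of_nonneg _ _ ht, mul_zero]
      have e2 : ∀ s : ℝ, max (-(t * s)) 0 = t * max (-s) 0 := fun s => by
        rw [← mul_neg, e1]
      simp only [e1, e2]
      rw [← Finset.mul_sum, ← Finset.mul_sum, mul_max_of_nonneg _ _ ht]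
    · rw [abs_of_nonpos ht]
      have ht' : 0 ≤ -t := by linarith
      have e1 : ∀ s : ℝ, max (t * s) 0 = -t * max (-s) 0 := fun s => by
        rw [mul_max_of_nonneg _ _ ht', mul_zero, neg_mul_neg]
      have e2 : ∀ s : ℝ, max (-(t * s)) 0 = -t * max s 0 := fun s => by
        rw [mul_max_of_nonneg _ _ ht', mul_zero, neg_mul]
      simp only [e1, e2]
      rw [← Finset.mul_sum, ← Finset.mul_sum, ← mul_max_of_nonneg _ _ ht', max_comm]
  · obtain ⟨i, hi⟩ := Function.ne_iff.1 hx
    simp only [Pi.zero_apply] at hi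
    simp only [sx]
    rcases lt_or_gt_of_ne hi with h | h
    · refine lt_max_of_lt_right (Finset.sum_pos' (fun i _ => le_max_right _ _)
        ⟨i, Finset.mem_univ _, lt_max_of_lt_left (by linarith)⟩)
    · refine lt_max_of_lt_left (Finset.sum_pos' (fun i _ => le_max_right _ _)
        ⟨i, Finset.mem_univ _, lt_max_of_lt_left h⟩)

/-- composition with an invertible matrix -/
theorem IsNorm.comp {F : (Fin d → ℝ) → ℝ} (hF : IsNorm F) (V : Matrix (Fin d) (Fin d) ℝ)
    (hV : IsUnit V.det) : IsNorm (fun x => F (x ᵥ* V)) := by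
  refine ⟨fun x y => ?_, fun t x => ?_, fun x hx => ?_⟩
  · simp only [Matrix.add_vecMul]
    exact hF.add_le _ _
  · simp only [Matrix.smul_vecMul]
    exact hF.smul _ _
  · apply hF.pos
    intro h0
    apply hx
    have h1 : (x ᵥ* V) ᵥ* V⁻¹ = x := by
      rw [Matrix.vecMul_vecMul, Matrix.mul_nonsing_inv V hV, Matrix.vecMul_one]
    rw [h0, Matrix.zero_vecMul] at h1
    exact h1.symm

end CycLat
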