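import Pool.Agent.CycLat.Def

/-! # CycLat, module Base: the two-dimensional base step -/

namespace CycLat

/-- the base step.  Let `r = N % J`, `N* = N - D Y² - (1 + D r) Y`, `s` with
`ρ = J s Y - N* ∈ [J Y, 2 J Y)`, `φ(t) = (1 + J (s - D t)) (r + J t)`,
`t ≥ 0` maximal with `φ(t) + ρ ≥ 0`; `x₁ = 1 + J (s - D t)`, `x₂ = r + J t`,
`e = -(ρ + φ t)/J`. -/
theorem base (D : ℤ) (hD : 1 ≤ D) (C₁ : ℤ) (hC₁ : 0 ≤ C₁) : ∃ C₂ J₀ : ℤ, 0 ≤ C₂ ∧ 1 ≤ J₀ ∧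
    ∀ J Y N : ℤ, J₀ ≤ J → J ∣ Y → J ^ 3 ≤ Y → Y ≤ (J + 1) ^ 3 → |N - D * Y ^ 2| ≤ C₁ * J * Y →
      ∃ x₁ x₂ e : ℤ, N = (D * Y + x₁) * (Y + x₂) + J * e ∧ J ∣ x₁ - 1 ∧
        |x₁| ≤ C₂ * J ^ 2 ∧ |x₂| ≤ C₂ * J ^ 2 ∧ |e| ≤ C₂ * J ^ 2 := by
  sorry

end CycLat
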