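import Pool.Agent.CycLat.Norm

/-! # CycLat, module Bh: `B_h` sets and the norm `sx` -/

open Matrix

namespace CycLat

/-- `A` is a `B_h` set: two `h`-term sums (repetition allowed) of elements of `A` that are equal
use the same multiset of elements. -/
def IsBh {G : Type} [AddCommMonoid G] (h : ℕ) (A : Finset G) : Prop :=
  ∀ s t : Multiset G, s.card = h → t.card = h → (∀ x ∈ s, x ∈ A) → (∀ x ∈ t, x ∈ A) →
    s.sum = t.sum → s = t

/-- `g m h` is the least positive `N` such that for every `n ≥ N` the cyclic group of order `n`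
contains a `B_h` set with at least `m` elements. -/
noncomputable def g (m h : ℕ) : ℕ :=
  sInf {N : ℕ | 0 < N ∧ ∀ n : ℕ, N ≤ n → ∃ A : Finset (ZMod n), m ≤ A.card ∧ IsBh h A}

/-- the norm `sx` of an integer vector -/
theorem sx_toR {d : ℕ} (w : Fin d → ℤ) :
    sx (toR w) = max ((∑ i, (w i).toNat : ℕ) : ℝ) ((∑ i, (-w i).toNat : ℕ) : ℝ) := by
  have key : ∀ z : ℤ, max (z : ℝ) 0 = ((z.toNat : ℕ) : ℝ) := by
    intro z
    have h1 : ((z.toNat : ℕ) : ℤ) = max z 0 := Int.toNat_eq_max z
    have h2 : ((z.toNat : ℕ) : ℝ) = (((z.toNat : ℕ) : ℤ) : ℝ) := by push_cast; rfl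
    rw [h2, h1, Int.cast_max, Int.cast_zero]
  rw [sx]
  push_cast
  congr 1
  · exact Finset.sum_congr rfl fun i _ => key (w i)
  · refine Finset.sum_congr rfl fun i _ => ?_
    rw [← key (-w i)]
    simp [toR]

/-- `{0, b₁, …, b_d}` is a `B_h` set with `d + 1` elements if every nonzero relation
`∑ wᵢ bᵢ = 0` in `ZMod n` has `sx w > h` (`sx w = max (∑ wᵢ⁺) (∑ wᵢ⁻)`). -/
theorem bh_of_adm {d : ℕ} (n h : ℕ) (hh : 1 ≤ h) (b : Fin d → ℤ)
    (H : ∀ w : Fin d → ℤ, w ≠ 0 → (n : ℤ) ∣ ∑ i, w i * b i → (h : ℝ) < sx (toR w)) :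
    ∃ A : Finset (ZMod n), d + 1 ≤ A.card ∧ IsBh h A := by
  classical
  -- the contrapositive of the hypothesis, in natural numbers
  have key : ∀ w : Fin d → ℤ, ∑ i, (w i).toNat ≤ h → ∑ i, (-w i).toNat ≤ h →
      ∑ i, (w i : ZMod n) * (b i : ZMod n) = 0 → w = 0 := by
    intro w h1 h2 h3
    by_contra hw
    have h4 := H w hw (by
      rw [← CharP.intCast_eq_zero_iff (ZMod n) n]
      push_cast
      exact h3)
    rw [sx_toR, lt_max_iff] at h4
    rcases h4 with h4 | h4
    · have : h < ∑ i, (w i).toNat := by exact_mod_cast h4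
      omega
    · have : h < ∑ i, (-w i).toNat := by exact_mod_cast h4
      omega
  set φ : Option (Fin d) → ZMod n := fun o => o.elim 0 (fun i => (b i : ZMod n)) with hφ
  have hφn : φ none = 0 := rfl
  have hφs : ∀ i, φ (some i) = (b i : ZMod n) := fun i => rfl
  -- sums with `Pi.single`
  have hsingle : ∀ i : Fin d, ∑ k, ((Pi.single i 1 : Fin d → ℤ) k).toNat = 1 := by
    intro i
    rw [Finset.sum_eq_single i]
    · simp
    · intro k _ hk; simp [Pi.single_eq_of_ne hk]
    · simp
  have hsingle' : ∀ i : Fin d, ∑ k, (-(Pi.single i 1 : Fin d → ℤ) k).toNat = 0 := by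
    intro i
    refine Finset.sum_eq_zero fun k _ => ?_
    by_cases hk : k = i
    · subst hk; simp
    · simp [Pi.single_eq_of_ne hk]
  have hne0 : ∀ i, (b i : ZMod n) ≠ 0 := by
    intro i hi
    have := key (Pi.single i 1) (by rw [hsingle]; exact hh) (by rw [hsingle']; omega) (by
      rw [Finset.sum_eq_single i]
      · simp [hi]
      · intro k _ hk; simp [Pi.single_eq_of_ne hk]
      · simp)
    have h1 := congrFun this i
    simp at h1
  have hinj0 : ∀ i j, (b i : ZMod n) = (b j : ZMod n) → i = j := by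
    intro i j hij
    by_contra hne
    have hle : ∀ k : Fin d, ((Pi.single i 1 - Pi.single j 1 : Fin d → ℤ) k).toNat ≤
        ((Pi.single i 1 : Fin d → ℤ) k).toNat := by
      intro k
      apply Int.toNat_le_toNat
      have : 0 ≤ (Pi.single j 1 : Fin d → ℤ) k := by
        by_cases hk : k = j
        · subst hk; simp
        · simp [Pi.single_eq_of_ne hk]
      simp only [Pi.sub_apply]
      omega
    have hle' : ∀ k : Fin d, (-(Pi.single i 1 - Pi.single j 1 : Fin d → ℤ) k).toNat ≤
        ((Pi.single j 1 : Fin d → ℤ) k).toNat := by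
      intro k
      apply Int.toNat_le_toNat
      have : 0 ≤ (Pi.single i 1 : Fin d → ℤ) k := by
        by_cases hk : k = i
        · subst hk; simp
        · simp [Pi.single_eq_of_ne hk]
      simp only [Pi.sub_apply]
      omega
    have := key (Pi.single i 1 - Pi.single j 1)
      ((Finset.sum_le_sum fun k _ => hle k).trans (by rw [hsingle]; exact hh))
      ((Finset.sum_le_sum fun k _ => hle' k).trans (by rw [hsingle]; exact hh)) (by
        have e : ∀ k, (((Pi.single i 1 - Pi.single j 1 : Fin d → ℤ) k : ℤ) : ZMod n) *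
            (b k : ZMod n) = (((Pi.single i 1 : Fin d → ℤ) k : ℤ) : ZMod n) * (b k : ZMod n) -
            (((Pi.single j 1 : Fin d → ℤ) k : ℤ) : ZMod n) * (b k : ZMod n) := by
          intro k; rw [Pi.sub_apply]; push_cast; ring
        rw [Finset.sum_congr rfl fun k _ => e k, Finset.sum_sub_distrib]
        have e2 : ∀ i : Fin d, ∑ k, (((Pi.single i 1 : Fin d → ℤ) k : ℤ) : ZMod n) *
            (b k : ZMod n) = (b i : ZMod n) := by
          intro i
          rw [Finset.sum_eq_single i]
          · simp
          · intro k _ hk; simp [Pi.single_eq_of_ne hk]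
          · simp
        rw [e2, e2, hij, sub_self])
    have h1 := congrFun this i
    rw [Pi.sub_apply, Pi.single_eq_same, Pi.single_eq_of_ne hne] at h1
    simp at h1
  have hinj : Function.Injective φ := by
    intro o o' hoo
    rcases o with _ | i <;> rcases o' with _ | j
    · rfl
    · rw [hφn, hφs] at hoo; exact (hne0 j hoo.symm).elim
    · rw [hφn, hφs] at hoo; exact (hne0 i hoo).elim
    · rw [hφs, hφs] at hoo; rw [hinj0 i j hoo]
  set A : Finset (ZMod n) := Finset.univ.image φ with hA
  refine ⟨A, ?_, ?_⟩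
  · rw [hA, Finset.card_image_of_injective _ hinj, Finset.card_univ, Fintype.card_option,
      Fintype.card_fin]
  · intro s t hs ht hsA htA hsum
    have hcard : ∀ r : Multiset (ZMod n), (∀ x ∈ r, x ∈ A) →
        r.card = r.count 0 + ∑ i, r.count (b i : ZMod n) := by
      intro r hr
      rw [← Multiset.sum_count_eq_card (s := A) (m := r) hr, hA,
        Finset.sum_image (fun x _ y _ hxy => hinj hxy), Fintype.sum_option]
      rfl
    have hsm : ∀ r : Multiset (ZMod n), (∀ x ∈ r, x ∈ A) →
        r.sum = ∑ i, (r.count (b i : ZMod n) : ZMod n) * (b i : ZMod n) := by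
      intro r hr
      rw [Finset.sum_multiset_count_of_subset r A (fun x hx => hr x (Multiset.mem_toFinset.1 hx)),
        hA, Finset.sum_image (fun x _ y _ hxy => hinj hxy), Fintype.sum_option]
      rw [hφn, smul_zero, zero_add]
      refine Finset.sum_congr rfl fun i _ => ?_
      rw [hφs, nsmul_eq_mul]
    have cs := hcard s hsA
    have ct := hcard t htA
    have ss := hsm s hsA
    have st := hsm t htA
    have hw := key (fun i => (s.count (b i : ZMod n) : ℤ) - (t.count (b i : ZMod n) : ℤ))
      (by
        refine (Finset.sum_le_sum (g := fun i => s.count (b i : ZMod n)) fun i _ => ?_).trans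
          (by omega)
        simp only [Int.toNat_le]
        omega)
      (by
        refine (Finset.sum_le_sum (g := fun i => t.count (b i : ZMod n)) fun i _ => ?_).trans
          (by omega)
        simp only [Int.toNat_le]
        omega)
      (by
        rw [ss, st] at hsum
        rw [← sub_eq_zero] at hsum
        rw [← hsum, ← Finset.sum_sub_distrib]
        refine Finset.sum_congr rfl fun i _ => ?_
        push_cast
        ring)
    have hw' : ∀ i, s.count (b i : ZMod n) = t.count (b i : ZMod n) := by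
      intro i
      have := congrFun hw i
      simp only [Pi.zero_apply] at this
      omega
    have hsumeq : ∑ i, s.count (b i : ZMod n) = ∑ i, t.count (b i : ZMod n) :=
      Finset.sum_congr rfl fun i _ => hw' i
    ext a
    by_cases ha : a ∈ A
    · rw [hA, Finset.mem_image] at ha
      obtain ⟨o, -, rfl⟩ := ha
      rcases o with _ | i
      · rw [hφn]; omega
      · rw [hφs]; exact hw' i
    · rw [Multiset.count_eq_zero_of_notMem (fun h => ha (hsA a h)),
        Multiset.count_eq_zero_of_notMem (fun h => ha (htA a h))]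

/-- conversely (take `d + 1` elements `a₀, …, a_d` of `A`, `bᵢ = aᵢ - a₀`) -/
theorem adm_of_bh {d : ℕ} (n h : ℕ) (hn : 1 ≤ n) (A : Finset (ZMod n)) (hA : d + 1 ≤ A.card)
    (H : IsBh h A) : ∃ b : Fin d → ℤ, Adm (sx : (Fin d → ℝ) → ℝ) n b ((h : ℝ) + 1) := by
  classical
  have : NeZero n := ⟨by omega⟩
  obtain ⟨ψ⟩ : Nonempty (Fin (d + 1) ↪ A) :=
    Function.Embedding.nonempty_of_card_le (by simpa using hA)
  set a : Fin (d + 1) → ZMod n := fun i => (ψ i : ZMod n) with ha
  have hainj : Function.Injective a := fun i j hij => ψ.injective (Subtype.ext hij)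
  have haA : ∀ i, a i ∈ A := fun i => (ψ i).2
  refine ⟨fun i => ((a i.succ - a 0).val : ℤ), fun w hw hdvd => ?_⟩
  by_contra hlt
  rw [not_le, sx_toR, max_lt_iff] at hlt
  have hP : ∑ i, (w i).toNat ≤ h := by
    have : ∑ i, (w i).toNat < h + 1 := by exact_mod_cast hlt.1
    omega
  have hN : ∑ i, (-w i).toNat ≤ h := by
    have : ∑ i, (-w i).toNat < h + 1 := by exact_mod_cast hlt.2
    omega
  have hrel : ∑ i, (w i : ZMod n) * (a i.succ - a 0) = 0 := by
    have := (CharP.intCast_eq_zero_iff (ZMod n) n _).2 hdvd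
    rw [← this]
    push_cast
    refine Finset.sum_congr rfl fun i _ => ?_
    rw [ZMod.natCast_zmod_val]
  -- the multiset with prescribed multiplicities
  set ms : (Fin d → ℕ) → Multiset (ZMod n) := fun c =>
    (∑ i, c i • ({a i.succ} : Multiset (ZMod n))) + (h - ∑ i, c i) • ({a 0} : Multiset (ZMod n))
    with hms
  have ms_card : ∀ c : Fin d → ℕ, ∑ i, c i ≤ h → (ms c).card = h := by
    intro c hc
    rw [hms]
    simp only [Multiset.card_add, Multiset.card_nsmul, Multiset.card_singleton, mul_one]
    rw [Multiset.card_sum]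
    simp only [Multiset.card_nsmul, Multiset.card_singleton, mul_one]
    omega
  have ms_mem : ∀ c : Fin d → ℕ, ∀ x ∈ ms c, x ∈ A := by
    intro c x hx
    rw [hms] at hx
    simp only [Multiset.mem_add, Multiset.mem_sum, Finset.mem_univ, true_and] at hx
    rcases hx with ⟨i, hi⟩ | hx
    · have := Multiset.mem_singleton.1 (Multiset.mem_of_mem_nsmul hi)
      rw [this]; exact haA _
    · have := Multiset.mem_singleton.1 (Multiset.mem_of_mem_nsmul hx)
      rw [this]; exact haA _
  have ms_sum : ∀ c : Fin d → ℕ, ∑ i, c i ≤ h →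
      (ms c).sum = ∑ i, (c i : ZMod n) * (a i.succ - a 0) + (h : ZMod n) * a 0 := by
    intro c hc
    rw [hms]
    simp only [Multiset.sum_add, Multiset.sum_nsmul, Multiset.sum_singleton]
    rw [Multiset.sum_sum]
    simp only [Multiset.sum_nsmul, Multiset.sum_singleton, nsmul_eq_mul]
    rw [Nat.cast_sub hc]
    push_cast
    simp only [mul_sub, Finset.sum_sub_distrib, sub_mul, Finset.sum_mul]
    ring
  have ms_count : ∀ (c : Fin d → ℕ) (j : Fin d), (ms c).count (a j.succ) = c j := by
    intro c j
    rw [hms]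
    simp only [Multiset.count_add, Multiset.count_nsmul, Multiset.count_singleton]
    rw [Multiset.count_sum']
    have h0 : ¬ (a j.succ = a 0) := fun h => (Fin.succ_ne_zero j) (hainj h)
    rw [if_neg h0, mul_zero, add_zero, Finset.sum_eq_single j]
    · simp
    · intro k _ hk
      have : ¬ (a j.succ = a k.succ) := fun h => hk (Fin.succ_injective _ (hainj h)).symm
      simp [this]
    · simp
  have heq := H (ms fun i => (w i).toNat) (ms fun i => (-w i).toNat) (ms_card _ hP) (ms_card _ hN)
    (ms_mem _) (ms_mem _) (by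
      rw [ms_sum _ hP, ms_sum _ hN, add_left_inj, ← sub_eq_zero, ← hrel,
        ← Finset.sum_sub_distrib]
      refine Finset.sum_congr rfl fun i _ => ?_
      have h1 : (w i : ZMod n) = (((w i).toNat : ℕ) : ZMod n) - (((-w i).toNat : ℕ) : ZMod n) := by
        have h2 : w i = ((w i).toNat : ℤ) - ((-w i).toNat : ℤ) := by omega
        have h3 : (w i : ZMod n) =
            ((((w i).toNat : ℤ) - ((-w i).toNat : ℤ) : ℤ) : ZMod n) := by rw [← h2]
        rw [h3, Int.cast_sub, Int.cast_natCast, Int.cast_natCast]
      rw [h1]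
      ring)
  apply hw
  funext j
  have h1 : (ms fun i => (w i).toNat).count (a j.succ) = (w j).toNat := ms_count _ j
  have h2 : (ms fun i => (-w i).toNat).count (a j.succ) = (-w j).toNat := ms_count _ j
  rw [heq, h2] at h1
  simp only [Pi.zero_apply]
  omega

end CycLat
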