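import Pool.Agent.CycLat.Span
import Pool.Agent.CycLat.Base

/-! # CycLat, module Core: lattices of index exactly `n` near the shape `diag(D,1,…,1)` -/

open Matrix

namespace CycLat

/-- EXACT INDEX LEMMA -/
theorem core (e : ℕ) (D : ℕ) (hD : 1 ≤ D) : ∃ C : ℝ, 0 < C ∧ ∃ n₀ : ℕ, ∀ n : ℕ, n₀ ≤ n →
    ∃ (m : Fin (e + 2) → ℤ) (B : Matrix (Fin (e + 2)) (Fin (e + 2)) ℤ),
      (∀ w : Fin (e + 2) → ℤ, (n : ℤ) ∣ ∑ j, w j * m j →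
        ∃ z : Fin (e + 2) → ℤ, ∀ j, w j = ∑ i, z i * B i j) ∧
      ∀ i j, |(B i j : ℝ) - ((n : ℝ) / D) ^ ((1 : ℝ) / ((e : ℝ) + 2)) *
          (if i = j then (if i = 0 then (D : ℝ) else 1) else 0)| ≤
        C * (((n : ℝ) / D) ^ ((1 : ℝ) / ((e : ℝ) + 2))) ^ ((2 : ℝ) / 3) := by
  sorry

end CycLat
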