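import Mathlib

/-!
# CycLat: cyclic integer lattices of prescribed index and prescribed shape

Project for MP_462568_co and MP_9225bc_co.  For `b ∈ ℤ^d` and `n ≥ 1` the lattice
`{w ∈ ℤ^d : n ∣ ∑ wᵢ bᵢ}` is the relation lattice of the elements `b₁, …, b_d` of `ℤ/n`.
-/

open Matrix

namespace CycLat

variable {d : ℕ}

/-- A norm on `ℝ^d`, given as a function. -/
structure IsNorm (F : (Fin d → ℝ) → ℝ) : Prop where
  add_le : ∀ x y, F (x + y) ≤ F x + F y
  smul : ∀ (t : ℝ) (x : Fin d → ℝ), F (t • x) = |t| * F x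
  pos : ∀ x, x ≠ 0 → 0 < F x

/-- the real vector of an integer vector -/
def toR (w : Fin d → ℤ) : Fin d → ℝ := fun i => (w i : ℝ)

/-- Every nonzero integer vector `w` with `n ∣ ∑ wᵢ bᵢ` satisfies `T ≤ F w`. -/
def Adm (F : (Fin d → ℝ) → ℝ) (n : ℤ) (b : Fin d → ℤ) (T : ℝ) : Prop :=
  ∀ w : Fin d → ℤ, w ≠ 0 → n ∣ ∑ i, w i * b i → T ≤ F (toR w)

/-- The critical determinant of the open unit ball of `F`: the infimum of `|det M|` over the real
matrices `M` with `det M ≠ 0` such that the lattice of the integer combinations of the rows of `M`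
has no nonzero point `x` with `F x < 1`. -/
noncomputable def crit (F : (Fin d → ℝ) → ℝ) : ℝ :=
  sInf {x : ℝ | ∃ M : Matrix (Fin d) (Fin d) ℝ, M.det ≠ 0 ∧
    (∀ z : Fin d → ℤ, z ≠ 0 → 1 ≤ F (toR z ᵥ* M)) ∧ x = |M.det|}

/-- the `ℓ¹` norm -/
def l1 (x : Fin d → ℝ) : ℝ := ∑ i, |x i|

/-- the norm `max(∑ xᵢ⁺, ∑ xᵢ⁻)`, whose unit ball is the difference body of the standard simplex
`{x ≥ 0, ∑ xᵢ ≤ 1}` -/
noncomputable def sx (x : Fin d → ℝ) : ℝ := max (∑ i, max (x i) 0) (∑ i, max (-x i) 0)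

end CycLat
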