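import Mathlib

/-! # CycLat, module Smith: Smith normal form of a nonsingular integer matrix -/

open Matrix

namespace CycLat

/-- The rows of `M` are a basis of the submodule `N` of `ℤ^d` they span; Mathlib gives bases
`bM` of `ℤ^d` and `bN` of `N` with `bN i = a i • bM i` (`Submodule.smithNormalForm…`);
`V` has the rows `bM i`, `U` is the base change from `bN` to the rows of `M`. -/
theorem smith {d : ℕ} (M : Matrix (Fin d) (Fin d) ℤ) (hM : M.det ≠ 0) :
    ∃ (U V : Matrix (Fin d) (Fin d) ℤ) (a : Fin d → ℤ), IsUnit U.det ∧ IsUnit V.det ∧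
      (∀ i, a i ≠ 0) ∧ M = U * Matrix.diagonal a * V := by
  classical
  have hli : LinearIndependent ℤ (fun i => M i) := by
    rw [Fintype.linearIndependent_iff]
    intro g hg
    have h1 : g ᵥ* M = 0 := by
      rw [← hg]
      ext j
      simp [Matrix.vecMul, dotProduct, Finset.sum_apply]
    have h2 := Matrix.eq_zero_of_vecMul_eq_zero hM h1
    intro i
    rw [h2]
    rfl
  let bR := Module.Basis.span hli
  let e := Pi.basisFun ℤ (Fin d)
  have hr : Module.finrank ℤ (Submodule.span ℤ (Set.range fun i => M i)) =
      Module.finrank ℤ (Fin d → ℤ) := by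
    rw [Module.finrank_eq_card_basis bR, Module.finrank_eq_card_basis e]
  obtain ⟨b', a, ab, hab⟩ := Submodule.exists_smith_normal_form_of_rank_eq e hr
  have hU1 : ab.toMatrix bR * bR.toMatrix ab = 1 := Module.Basis.toMatrix_mul_toMatrix_flip _ _
  have hV1 : e.toMatrix b' * b'.toMatrix e = 1 := Module.Basis.toMatrix_mul_toMatrix_flip _ _
  have hUu : IsUnit (ab.toMatrix bR)ᵀ.det := by
    rw [Matrix.det_transpose]
    have h := congrArg Matrix.det hU1
    rw [Matrix.det_mul, Matrix.det_one] at h
    exact IsUnit.of_mul_eq_one _ h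
  have hVu : IsUnit (e.toMatrix b')ᵀ.det := by
    rw [Matrix.det_transpose]
    have h := congrArg Matrix.det hV1
    rw [Matrix.det_mul, Matrix.det_one] at h
    exact IsUnit.of_mul_eq_one _ h
  have hfac : M = (ab.toMatrix bR)ᵀ * Matrix.diagonal a * (e.toMatrix b')ᵀ := by
    ext i j
    have h1 : M i = ∑ l, (ab.repr (bR i)) l • (a l • b' l) := by
      have h2 := congrArg (Submodule.subtype _) (ab.sum_repr (bR i))
      rw [map_sum] at h2
      have h3 : (Submodule.subtype _) (bR i) = M i := by
        change ((bR i : _) : Fin d → ℤ) = M i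
        rw [show bR i = _ from Module.Basis.span_apply hli i]
      rw [← h3, ← h2]
      apply Finset.sum_congr rfl
      intro l _
      rw [map_smul]
      congr 1
      exact hab l
    rw [h1, Matrix.mul_apply, Finset.sum_apply]
    apply Finset.sum_congr rfl
    intro l _
    rw [Matrix.mul_diagonal, Matrix.transpose_apply, Matrix.transpose_apply,
      Module.Basis.toMatrix_apply, Module.Basis.toMatrix_apply, Pi.basisFun_repr]
    simp [mul_assoc]
  refine ⟨_, _, a, hUu, hVu, ?_, hfac⟩
  intro i hi
  apply hM
  rw [hfac, Matrix.det_mul, Matrix.det_mul, Matrix.det_diagonal,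
    Finset.prod_eq_zero (Finset.mem_univ i) hi, mul_zero, zero_mul]

end CycLat
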