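import Pool.Agent.CycLat.Span
import Pool.Agent.CycLat.Norm
import Pool.Agent.CycLat.Smith

/-! # CycLat, module Density: cyclic lattices (with `a 0 = 1`, after a change of basis of `ℤ^d`)
are dense in the space of lattices -/

open Matrix

namespace CycLat

/-- Let `k ≥ 1`, `a i ≠ 0`: the lattice spanned by the rows `k a_i e_i - e_{i+1}` (`i < d`),
`k a_d e_d` is `{w : D ∣ w · m}` with `m = (1, k a_0, k² a_0 a_1, …)`, `D = k^{d+1} ∏ a_i`
(induction on `d` with `Span.ext`, `u = 0`). -/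
theorem bidiag (d : ℕ) (k : ℤ) (hk : 1 ≤ k) (a : Fin (d + 1) → ℤ) (ha : ∀ i, a i ≠ 0) :
    ∃ m : Fin (d + 1) → ℤ, m 0 = 1 ∧
      Span (fun i j => k * (if i = j then a i else 0) - (if (j : ℕ) = i + 1 then 1 else 0)) m
        (k ^ (d + 1) * ∏ i, a i) := by
  have hk0 : k ≠ 0 := by omega
  induction d with
  | zero =>
    refine ⟨fun _ => 1, rfl, ?_, ?_, ?_⟩
    · exact mul_ne_zero (pow_ne_zero _ hk0) (Finset.prod_ne_zero_iff.2 fun i _ => ha i)
    · intro i
      obtain rfl : i = 0 := Fin.ext (by simp)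
      simp
    · intro w hw
      obtain ⟨t, ht⟩ := hw
      refine ⟨fun _ => t, fun j => ?_⟩
      obtain rfl : j = 0 := Fin.ext (by simp)
      simp at ht ⊢
      rw [ht]; ring
  | succ d ih =>
    obtain ⟨m, hm0, hsp⟩ := ih (fun i => a (Fin.castSucc i)) (fun i => ha _)
    refine ⟨Fin.snoc m (k ^ (d + 1) * ∏ i : Fin (d + 1), a (Fin.castSucc i)), ?_, ?_⟩
    · have : (0 : Fin (d + 1 + 1)) = Fin.castSucc 0 := rfl
      rw [this, Fin.snoc_castSucc, hm0]
    · have h1 := hsp.ext (fun _ => 0) (k * a (Fin.last (d + 1)))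
        (k ^ (d + 1 + 1) * ∏ i, a i) (by
          rw [Fin.prod_univ_castSucc (n := d + 1)]
          simp only [zero_mul, Finset.sum_const_zero, zero_add]
          ring) (mul_ne_zero (pow_ne_zero _ hk0) (Finset.prod_ne_zero_iff.2 fun i _ => ha i))
      have h2 : CycLat.ext (fun (i j : Fin (d + 1)) =>
          k * (if i = j then a (Fin.castSucc i) else 0) - (if (j : ℕ) = i + 1 then 1 else 0))
          (fun _ => 0) (k * a (Fin.last (d + 1))) =
          (fun (i j : Fin (d + 1 + 1)) =>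
            k * (if i = j then a i else 0) - (if (j : ℕ) = i + 1 then 1 else 0)) := by
        funext i j
        refine Fin.lastCases ?_ (fun i => ?_) i
        · refine Fin.lastCases ?_ (fun j => ?_) j
          · refine (ext_last_last _ _ _).trans ?_
            simp
          · refine (ext_last_castSucc _ _ _ _).trans ?_
            rw [if_neg (Fin.castSucc_lt_last j).ne', if_neg]
            · simp
            · have := j.2
              simp only [Fin.val_castSucc, Fin.val_last]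
              omega
        · refine Fin.lastCases ?_ (fun j => ?_) j
          · refine (ext_castSucc_last _ _ _ _).trans ?_
            rw [if_neg (Fin.castSucc_lt_last i).ne]
            by_cases h : i = Fin.last d
            · rw [if_pos h, if_pos]
              · ring
              · rw [h]; simp
            · rw [if_neg h, if_neg]
              · ring
              · intro h3
                apply h
                ext
                simp only [Fin.val_castSucc, Fin.val_last] at h3 ⊢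
                omega
          · refine (ext_castSucc_castSucc _ _ _ _ _).trans ?_
            simp only [Fin.castSucc_inj, Fin.val_castSucc]
      rw [h2] at h1
      exact h1

/-- the sum of the absolute values of the entries -/
noncomputable def entS {n : ℕ} (A : Matrix (Fin n) (Fin n) ℝ) : ℝ := ∑ i, ∑ j, |A i j|

theorem entS_nonneg {n : ℕ} (A : Matrix (Fin n) (Fin n) ℝ) : 0 ≤ entS A :=
  Finset.sum_nonneg fun _ _ => Finset.sum_nonneg fun _ _ => abs_nonneg _

theorem vec_norm {n : ℕ} (A : Matrix (Fin n) (Fin n) ℝ) (x : Fin n → ℝ) :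
    ‖x ᵥ* A‖ ≤ entS A * ‖x‖ := by
  rw [pi_norm_le_iff_of_nonneg (mul_nonneg (entS_nonneg A) (norm_nonneg x))]
  intro j
  rw [Real.norm_eq_abs]
  have h1 : (x ᵥ* A) j = ∑ i, x i * A i j := rfl
  rw [h1]
  refine (Finset.abs_sum_le_sum_abs _ _).trans ?_
  unfold entS
  rw [Finset.sum_mul]
  apply Finset.sum_le_sum
  intro i _
  rw [abs_mul, mul_comm]
  have h2 : |x i| ≤ ‖x‖ := by
    rw [← Real.norm_eq_abs]
    exact norm_le_pi_norm x i
  have h3 : |A i j| ≤ ∑ j, |A i j| :=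
    Finset.single_le_sum (f := fun j => |A i j|) (fun _ _ => abs_nonneg _) (Finset.mem_univ j)
  exact mul_le_mul h3 h2 (abs_nonneg _) (Finset.sum_nonneg fun _ _ => abs_nonneg _)

theorem toR_vecMul {n : ℕ} (z : Fin n → ℤ) (A : Matrix (Fin n) (Fin n) ℤ) :
    toR (z ᵥ* A) = toR z ᵥ* A.map (Int.cast : ℤ → ℝ) := by
  funext j
  exact RingHom.map_vecMul (Int.castRingHom ℝ) A z j

theorem floor_tendsto (x : ℝ) :
    Filter.Tendsto (fun q : ℕ => ((⌊(q : ℝ) * x⌋ : ℤ) : ℝ) / q) Filter.atTop (nhds x) := by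
  have h1 : Filter.Tendsto (fun q : ℕ => x - 1 / (q : ℝ)) Filter.atTop (nhds x) := by
    have := (tendsto_one_div_atTop_nhds_zero_nat (𝕜 := ℝ)).const_sub x
    simpa using this
  refine tendsto_of_tendsto_of_tendsto_of_le_of_le' h1 tendsto_const_nhds ?_ ?_
  · filter_upwards [Filter.eventually_gt_atTop 0] with q hq
    have hq' : (0 : ℝ) < q := by exact_mod_cast hq
    rw [le_div_iff₀ hq', sub_mul, one_div, inv_mul_cancel₀ hq'.ne']
    have := Int.sub_one_lt_floor ((q : ℝ) * x)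
    linarith
  · filter_upwards [Filter.eventually_gt_atTop 0] with q hq
    have hq' : (0 : ℝ) < q := by exact_mod_cast hq
    rw [div_le_iff₀ hq']
    have := Int.floor_le ((q : ℝ) * x)
    linarith

/-- Density.  Proof: `q` large, `M' = ⌊q M⌋` (entrywise, integer matrix, `det M' ≠ 0`),
`M' = U diag(a) V` (Smith), `k` large, `G = k diag(a) - P` (`P` = superdiagonal of ones, lattice of
`bidiag`), `D = |det G| = k^d |det M'|`, `s = (1 - small) k q`.  If `D ∣ w · m`, `w ≠ 0`, then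
`w = y G`, `y ≠ 0`, and with `z = y U⁻¹ ≠ 0`: `w V = k z M' - y P V = k q z M + k z (M' - q M) - y P V`,
so `F (w V) ≥ k q F (z M) - C (k + C_{U,V}) ‖z‖` and `‖z‖ ≤ C' F (z M)`, `F (z M) ≥ 1`.
Choose first `q`, then `k`. -/
theorem density {e : ℕ} {F : (Fin (e + 2) → ℝ) → ℝ} (hF : IsNorm F)
    (M : Matrix (Fin (e + 2)) (Fin (e + 2)) ℝ) (hM : M.det ≠ 0)
    (h1 : ∀ z : Fin (e + 2) → ℤ, z ≠ 0 → 1 ≤ F (toR z ᵥ* M)) (ε : ℝ) (hε : 0 < ε) :
    ∃ (V : Matrix (Fin (e + 2)) (Fin (e + 2)) ℤ) (D : ℕ) (a : Fin (e + 2) → ℤ) (s : ℝ),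
      IsUnit V.det ∧ 1 ≤ D ∧ a 0 = 1 ∧ 0 < s ∧ (D : ℝ) ≤ (|M.det| + ε) * s ^ (e + 2) ∧
      Adm (fun x => F (x ᵥ* V.map (Int.cast : ℤ → ℝ))) D a s := by
  obtain ⟨c, C, hc, hC, hb⟩ := hF.bounds
  set A0 : ℝ := |M.det| with hA0
  have hA0' : 0 ≤ A0 := abs_nonneg _
  set n : ℝ := (e : ℝ) + 2 with hn
  have hn2 : 2 ≤ n := by
    have : (0 : ℝ) ≤ e := Nat.cast_nonneg e
    rw [hn]; linarith
  set L : ℝ := entS M⁻¹ / c with hL
  have hL0 : 0 ≤ L := div_nonneg (entS_nonneg _) hc.le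
  set ρ : ℝ := (A0 + ε / 2) / (A0 + ε) with hρ
  have hρ0 : 0 < ρ := by positivity
  have hρ1 : ρ < 1 := by
    rw [hρ, div_lt_one (by positivity)]
    linarith
  set δ : ℝ := (1 - ρ) / n with hδ
  have hδ0 : 0 < δ := div_pos (by linarith) (by linarith)
  have hδ1 : δ < 1 := by
    rw [hδ, div_lt_one (by linarith)]
    linarith
  -- the approximation
  let Mq : ℕ → Matrix (Fin (e + 2)) (Fin (e + 2)) ℝ := fun q =>
    Matrix.of fun i j => ((⌊(q : ℝ) * M i j⌋ : ℤ) : ℝ) / q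
  have hT : Filter.Tendsto (fun q => (Mq q).det) Filter.atTop (nhds M.det) := by
    have h2 : Filter.Tendsto Mq Filter.atTop (nhds M) := by
      exact tendsto_pi_nhds.2 fun i => tendsto_pi_nhds.2 fun j => floor_tendsto (M i j)
    exact ((continuous_id.matrix_det).tendsto M).comp h2
  have hev1 : ∀ᶠ q in Filter.atTop, (Mq q).det ≠ 0 := hT.eventually_ne hM
  have hev2 : ∀ᶠ q in Filter.atTop, |(Mq q).det| < A0 + ε / 2 :=
    (hT.abs).eventually_lt_const (by linarith)
  have hev3 : ∀ᶠ q : ℕ in Filter.atTop, C * (n ^ 2 * L) ≤ δ / 2 * (q : ℝ) := by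
    have h3 := (tendsto_natCast_atTop_atTop (R := ℝ)).eventually_ge_atTop (C * (n ^ 2 * L) / (δ / 2))
    filter_upwards [h3] with q hq
    rw [div_le_iff₀ (by positivity)] at hq
    linarith
  obtain ⟨q, hq1, hq2, hq3, hq4⟩ :=
    (hev1.and (hev2.and (hev3.and (Filter.eventually_ge_atTop 1)))).exists
  have hqr : (1 : ℝ) ≤ q := by exact_mod_cast hq4
  have hqpos : (0 : ℝ) < q := by linarith
  let M' : Matrix (Fin (e + 2)) (Fin (e + 2)) ℤ := Matrix.of fun i j => ⌊(q : ℝ) * M i j⌋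
  have hM'q : M'.map (Int.cast : ℤ → ℝ) = (q : ℝ) • Mq q := by
    ext i j
    simp only [Matrix.map_apply, Matrix.smul_apply, smul_eq_mul, M', Mq, Matrix.of_apply]
    field_simp
  have hdet : ((M'.det : ℤ) : ℝ) = (q : ℝ) ^ (e + 2) * (Mq q).det := by
    have h3 : ((M'.det : ℤ) : ℝ) = (M'.map (Int.cast : ℤ → ℝ)).det := by
      exact RingHom.map_det (Int.castRingHom ℝ) M'
    rw [h3, hM'q, Matrix.det_smul, Fintype.card_fin]
  have hdet0 : M'.det ≠ 0 := by
    intro h3
    rw [h3] at hdet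
    have h4 : (q : ℝ) ^ (e + 2) * (Mq q).det ≠ 0 := mul_ne_zero (pow_ne_zero _ hqpos.ne') hq1
    exact h4 (by rw [← hdet]; simp)
  obtain ⟨U, V, a, hU, hV, ha, hfac⟩ := smith M' hdet0
  let P : Matrix (Fin (e + 2)) (Fin (e + 2)) ℤ :=
    Matrix.of fun i j => if (j : ℕ) = i + 1 then 1 else 0
  set K : ℝ := entS ((U * P * V).map (Int.cast : ℤ → ℝ)) with hK
  have hK0 : 0 ≤ K := entS_nonneg _
  obtain ⟨k, hk⟩ := exists_nat_ge (max 1 (C * (K * L) / (δ / 2)))
  have hk1 : (1 : ℝ) ≤ k := (le_max_left _ _).trans hk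
  have hk1' : (1 : ℤ) ≤ (k : ℤ) := by exact_mod_cast hk1
  have hk2 : C * (K * L) ≤ δ / 2 * k := by
    have h3 := (le_max_right _ _).trans hk
    rw [div_le_iff₀ (by positivity)] at h3
    linarith
  obtain ⟨m, hm0, hsp⟩ := bidiag (e + 1) k hk1' a ha
  set N : ℤ := (k : ℤ) ^ (e + 1 + 1) * ∏ i, a i with hN
  have hN0 : N ≠ 0 := hsp.ne
  set s : ℝ := (k : ℝ) * q * (1 - δ) with hs
  have hs0 : 0 < s := by
    rw [hs]
    have : 0 < 1 - δ := by linarith
    positivity
  have habsdet : |((M'.det : ℤ) : ℝ)| = |((∏ i, a i : ℤ) : ℝ)| := by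
    rw [hfac, Matrix.det_mul, Matrix.det_mul, Matrix.det_diagonal]
    have hu : |((U.det : ℤ) : ℝ)| = 1 := by
      rcases Int.isUnit_iff.1 hU with h | h <;> rw [h] <;> simp
    have hv : |((V.det : ℤ) : ℝ)| = 1 := by
      rcases Int.isUnit_iff.1 hV with h | h <;> rw [h] <;> simp
    rw [Int.cast_mul, Int.cast_mul, abs_mul, abs_mul, hu, hv, one_mul, mul_one]
  refine ⟨V, N.natAbs, m, s, hV, Int.natAbs_pos.2 hN0, hm0, hs0, ?_, ?_⟩
  · have h3 : ((N.natAbs : ℕ) : ℝ) = (k : ℝ) ^ (e + 2) * ((q : ℝ) ^ (e + 2) * |(Mq q).det|) := by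
      have h4 : ((N.natAbs : ℕ) : ℝ) = |((N : ℤ) : ℝ)| := by
        rw [Nat.cast_natAbs, Int.cast_abs]
      rw [h4, hN, Int.cast_mul, abs_mul, ← habsdet, hdet, abs_mul, Int.cast_pow, abs_pow, abs_pow]
      simp
    rw [h3, hs]
    have h5 : ρ ≤ (1 - δ) ^ (e + 2) := by
      have h6 := one_add_mul_le_pow (a := -δ) (by linarith) (e + 2)
      have h7 : (1 : ℝ) + ((e + 2 : ℕ) : ℝ) * -δ = ρ := by
        have h8 : ((e + 2 : ℕ) : ℝ) = n := by rw [hn]; push_cast; ring
        rw [h8, hδ]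
        have : n ≠ 0 := by linarith
        field_simp
        ring
      rw [h7] at h6
      simpa [sub_eq_add_neg] using h6
    have h9 : A0 + ε / 2 ≤ (A0 + ε) * (1 - δ) ^ (e + 2) := by
      have h10 : (A0 + ε) * ρ = A0 + ε / 2 := by
        rw [hρ]
        have : A0 + ε ≠ 0 := by positivity
        field_simp
      rw [← h10]
      exact mul_le_mul_of_nonneg_left h5 (by positivity)
    calc (k : ℝ) ^ (e + 2) * ((q : ℝ) ^ (e + 2) * |(Mq q).det|)
        = ((k : ℝ) * q) ^ (e + 2) * |(Mq q).det| := by rw [mul_pow]; ring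
      _ ≤ ((k : ℝ) * q) ^ (e + 2) * ((A0 + ε) * (1 - δ) ^ (e + 2)) :=
          mul_le_mul_of_nonneg_left (hq2.le.trans h9) (by positivity)
      _ = (A0 + ε) * ((k : ℝ) * q * (1 - δ)) ^ (e + 2) := by
          rw [mul_pow ((k : ℝ) * q) (1 - δ)]; ring
  · intro w hw hdvd
    rw [Int.natAbs_dvd] at hdvd
    obtain ⟨y, hy⟩ := hsp.span w hdvd
    let B : Matrix (Fin (e + 2)) (Fin (e + 2)) ℤ := (k : ℤ) • Matrix.diagonal a - P
    have hwB : w = y ᵥ* B := by
      funext j
      rw [hy j]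
      change _ = ∑ i, y i * B i j
      apply Finset.sum_congr rfl
      intro i _
      congr 1
    set z : Fin (e + 2) → ℤ := y ᵥ* U⁻¹ with hz
    have hzU : z ᵥ* U = y := by
      rw [hz, Matrix.vecMul_vecMul, Matrix.nonsing_inv_mul _ hU, Matrix.vecMul_one]
    have hz0 : z ≠ 0 := by
      intro h3
      apply hw
      rw [hwB, ← hzU, h3, Matrix.zero_vecMul, Matrix.zero_vecMul]
    have hUBV : U * B * V = (k : ℤ) • M' - U * P * V := by
      change U * ((k : ℤ) • Matrix.diagonal a - P) * V = _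
      rw [Matrix.mul_sub, Matrix.sub_mul, hfac, Matrix.mul_smul, Matrix.smul_mul]
    set R : Matrix (Fin (e + 2)) (Fin (e + 2)) ℝ := M'.map (Int.cast : ℤ → ℝ) - (q : ℝ) • M with hR
    set Q : Matrix (Fin (e + 2)) (Fin (e + 2)) ℝ := (U * P * V).map (Int.cast : ℤ → ℝ) with hQ
    have hx : toR w ᵥ* V.map (Int.cast : ℤ → ℝ) =
        ((k : ℝ) * q) • (toR z ᵥ* M) + ((k : ℝ) • (toR z ᵥ* R) - toR z ᵥ* Q) := by
      have h3 : toR w ᵥ* V.map (Int.cast : ℤ → ℝ) =
          toR z ᵥ* ((k : ℤ) • M' - U * P * V).map (Int.cast : ℤ → ℝ) := by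
        rw [← toR_vecMul, ← toR_vecMul, ← hUBV]
        congr 1
        rw [hwB, ← hzU, Matrix.vecMul_vecMul, Matrix.vecMul_vecMul, Matrix.mul_assoc U B V]
      have h4 : ((k : ℤ) • M' - U * P * V).map (Int.cast : ℤ → ℝ) =
          (((k : ℝ) * q) • M + ((k : ℝ) • R - Q)) := by
        ext i j
        simp only [Matrix.map_apply, Matrix.sub_apply, Matrix.add_apply, Matrix.smul_apply,
          smul_eq_mul, hR, hQ, Int.cast_sub, Int.cast_mul, Int.cast_natCast]
        ring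
      rw [h3, h4, Matrix.vecMul_add, Matrix.vecMul_sub, Matrix.vecMul_smul, Matrix.vecMul_smul]
    set X : Fin (e + 2) → ℝ := toR w ᵥ* V.map (Int.cast : ℤ → ℝ) with hX
    set f : ℝ := F (toR z ᵥ* M) with hf
    have hf1 : 1 ≤ f := h1 z hz0
    have hznorm : ‖toR z‖ ≤ L * f := by
      have h3 : toR z = (toR z ᵥ* M) ᵥ* M⁻¹ := by
        rw [Matrix.vecMul_vecMul, Matrix.mul_nonsing_inv _ (isUnit_iff_ne_zero.2 hM),
          Matrix.vecMul_one]
      have h4 : ‖toR z‖ ≤ entS M⁻¹ * ‖toR z ᵥ* M‖ := by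
        conv_lhs => rw [h3]
        exact vec_norm _ _
      have h5 := (hb (toR z ᵥ* M)).1
      have h6 : ‖toR z ᵥ* M‖ ≤ f / c := by
        rw [le_div_iff₀ hc]
        linarith
      calc ‖toR z‖ ≤ entS M⁻¹ * (f / c) :=
            h4.trans (mul_le_mul_of_nonneg_left h6 (entS_nonneg _))
        _ = L * f := by rw [hL]; ring
    have hRn : entS R ≤ n ^ 2 := by
      unfold entS
      have h3 : ∀ i j, |R i j| ≤ 1 := by
        intro i j
        simp only [hR, Matrix.sub_apply, Matrix.map_apply, Matrix.smul_apply, smul_eq_mul, M',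
          Matrix.of_apply]
        have h4 := Int.floor_le ((q : ℝ) * M i j)
        have h5 := Int.lt_floor_add_one ((q : ℝ) * M i j)
        rw [abs_le]
        constructor <;> linarith
      calc ∑ i, ∑ j, |R i j| ≤ ∑ _i : Fin (e + 2), ∑ _j : Fin (e + 2), (1 : ℝ) :=
            Finset.sum_le_sum fun i _ => Finset.sum_le_sum fun j _ => h3 i j
        _ = n ^ 2 := by
            simp only [Finset.sum_const, Finset.card_univ, Fintype.card_fin, nsmul_eq_mul, mul_one,
              hn]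
            push_cast
            ring
    have hG : F ((k : ℝ) • (toR z ᵥ* R) - toR z ᵥ* Q) ≤ C * ((k : ℝ) * n ^ 2 + K) * (L * f) := by
      have h3 := (hb ((k : ℝ) • (toR z ᵥ* R) - toR z ᵥ* Q)).2
      have h4 : ‖(k : ℝ) • (toR z ᵥ* R) - toR z ᵥ* Q‖ ≤ ((k : ℝ) * n ^ 2 + K) * ‖toR z‖ := by
        refine (norm_sub_le _ _).trans ?_
        rw [norm_smul, Real.norm_eq_abs, abs_of_nonneg (by linarith : (0 : ℝ) ≤ k), add_mul]
        have h5 := vec_norm R (toR z)
        have h6 := vec_norm Q (toR z)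
        have h7 : entS R * ‖toR z‖ ≤ n ^ 2 * ‖toR z‖ :=
          mul_le_mul_of_nonneg_right hRn (norm_nonneg _)
        have h8 : (k : ℝ) * ‖toR z ᵥ* R‖ ≤ k * (n ^ 2 * ‖toR z‖) :=
          mul_le_mul_of_nonneg_left (h5.trans h7) (by linarith)
        rw [← hK] at h6
        linarith
      have h9 : ((k : ℝ) * n ^ 2 + K) * ‖toR z‖ ≤ ((k : ℝ) * n ^ 2 + K) * (L * f) :=
        mul_le_mul_of_nonneg_left hznorm (by positivity)
      calc F ((k : ℝ) • (toR z ᵥ* R) - toR z ᵥ* Q)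
          ≤ C * ‖(k : ℝ) • (toR z ᵥ* R) - toR z ᵥ* Q‖ := h3
        _ ≤ C * (((k : ℝ) * n ^ 2 + K) * (L * f)) :=
            mul_le_mul_of_nonneg_left (h4.trans h9) hC.le
        _ = _ := by ring
    have hlow : (k : ℝ) * q * f ≤ F X + F ((k : ℝ) • (toR z ᵥ* R) - toR z ᵥ* Q) := by
      have h3 : ((k : ℝ) * q) • (toR z ᵥ* M) =
          X + (-1 : ℝ) • ((k : ℝ) • (toR z ᵥ* R) - toR z ᵥ* Q) := by
        rw [hx, neg_one_smul]
        abel
      have h4 := hF.add_le X ((-1 : ℝ) • ((k : ℝ) • (toR z ᵥ* R) - toR z ᵥ* Q))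
      rw [← h3, hF.smul, hF.smul] at h4
      rw [abs_of_nonneg (by positivity : (0 : ℝ) ≤ (k : ℝ) * q)] at h4
      simpa using h4
    change s ≤ F X
    have h10 : C * ((k : ℝ) * n ^ 2 + K) * (L * f) ≤ (k : ℝ) * q * δ * f := by
      have h11 : C * ((k : ℝ) * n ^ 2 + K) * L ≤ (k : ℝ) * q * δ := by
        have h12 : (k : ℝ) * (C * (n ^ 2 * L)) ≤ k * (δ / 2 * q) :=
          mul_le_mul_of_nonneg_left hq3 (by linarith)
        have h13 : δ / 2 * k ≤ δ / 2 * k * q := by
          have : 0 ≤ δ / 2 * k := by positivity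
          nlinarith
        nlinarith [h12, h13, hk2]
      calc C * ((k : ℝ) * n ^ 2 + K) * (L * f) = C * ((k : ℝ) * n ^ 2 + K) * L * f := by ring
        _ ≤ (k : ℝ) * q * δ * f := mul_le_mul_of_nonneg_right h11 (by linarith)
    have h14 : s * f ≤ F X := by
      rw [hs]
      nlinarith [hlow, hG, h10]
    have h15 : s * 1 ≤ s * f := mul_le_mul_of_nonneg_left hf1 hs0.le
    linarith

end CycLat
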