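import Pool.Agent.CycLat.Transfer
import Pool.Agent.CycLat.Density

/-! # CycLat, module Main: every index `n ≥ (crit F + ε) T^d` is enough -/

open Matrix

namespace CycLat

/-- the set in the definition of `crit F` is nonempty -/
theorem crit_set_nonempty {d : ℕ} {F : (Fin d → ℝ) → ℝ} (hF : IsNorm F) :
    {x : ℝ | ∃ M : Matrix (Fin d) (Fin d) ℝ, M.det ≠ 0 ∧
      (∀ z : Fin d → ℤ, z ≠ 0 → 1 ≤ F (toR z ᵥ* M)) ∧ x = |M.det|}.Nonempty := by
  obtain ⟨c, C, hc, hC, hb⟩ := hF.bounds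
  refine ⟨_, c⁻¹ • (1 : Matrix (Fin d) (Fin d) ℝ), ?_, ?_, rfl⟩
  · rw [Matrix.det_smul, Matrix.det_one, mul_one]
    exact pow_ne_zero _ (inv_ne_zero hc.ne')
  · intro z hz
    have h1 : toR z ᵥ* (c⁻¹ • (1 : Matrix (Fin d) (Fin d) ℝ)) = c⁻¹ • toR z := by
      rw [Matrix.vecMul_smul, Matrix.vecMul_one]
    rw [h1, hF.smul, abs_of_pos (inv_pos.mpr hc)]
    have h2 : 1 ≤ ‖toR z‖ := by
      obtain ⟨i, hi⟩ : ∃ i, z i ≠ 0 := by
        by_contra h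
        push Not at h
        exact hz (funext h)
      have h3 : (1 : ℝ) ≤ ‖toR z i‖ := by
        unfold toR
        rw [Real.norm_eq_abs]
        have := Int.one_le_abs hi
        exact_mod_cast this
      exact h3.trans (norm_le_pi_norm _ i)
    have h3 := (hb (toR z)).1
    have h4 : c * 1 ≤ F (toR z) := (mul_le_mul_of_nonneg_left h2 hc.le).trans h3
    rw [inv_mul_eq_div, le_div_iff₀ hc]
    linarith

/-- change of basis for `Adm` -/
theorem Main.adm_change {d : ℕ} {F : (Fin d → ℝ) → ℝ} {V : Matrix (Fin d) (Fin d) ℤ}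
    (hV : IsUnit V.det) {n : ℤ} {b : Fin d → ℤ} {T : ℝ}
    (h : Adm (fun x => F (x ᵥ* V.map (Int.cast : ℤ → ℝ))) n b T) :
    Adm F n (V⁻¹ *ᵥ b) T := by
  intro w hw hd
  have h1 : (w ᵥ* V⁻¹) ᵥ* V = w := by
    rw [Matrix.vecMul_vecMul, Matrix.nonsing_inv_mul _ hV, Matrix.vecMul_one]
  have h2 : w ᵥ* V⁻¹ ≠ 0 := by
    intro h0
    rw [h0, Matrix.zero_vecMul] at h1
    exact hw h1.symm
  have h3 : n ∣ ∑ i, (w ᵥ* V⁻¹) i * b i := by
    have : ∑ i, (w ᵥ* V⁻¹) i * b i = ∑ i, w i * (V⁻¹ *ᵥ b) i := by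
      change (w ᵥ* V⁻¹) ⬝ᵥ b = w ⬝ᵥ (V⁻¹ *ᵥ b)
      rw [Matrix.dotProduct_mulVec]
    rw [this]
    exact hd
  have h4 := h _ h2 h3
  have h5 : toR (w ᵥ* V⁻¹) ᵥ* V.map (Int.cast : ℤ → ℝ) = toR w := by
    have : toR ((w ᵥ* V⁻¹) ᵥ* V) = toR (w ᵥ* V⁻¹) ᵥ* V.map (Int.cast : ℤ → ℝ) := by
      funext i
      simp [toR, Matrix.vecMul, dotProduct]
    rw [← this, h1]
  simp only [h5] at h4
  exact h4

theorem Main.map_unit {d : ℕ} {V : Matrix (Fin d) (Fin d) ℤ} (hV : IsUnit V.det) :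
    IsUnit (V.map (Int.cast : ℤ → ℝ)).det := by
  have h := hV.map (Int.castRingHom ℝ)
  rw [RingHom.map_det] at h
  exact h

/-- Take `M` in the definition of `crit F` with `|det M| < crit F + ε/4`, `density` with `ε/4`, then
`transfer` for the norm `F' x = F (x V)`: `b'` with `Adm F' n b' (s (n/D)^(1/d) - C n^(2/(3d)))`;
`b = V⁻¹ b'`.  For `n` large `s (n/D)^(1/d) - C n^(2/(3d)) ≥ (n / (crit F + ε))^(1/d) ≥ T`. -/
theorem main {e : ℕ} {F : (Fin (e + 2) → ℝ) → ℝ} (hF : IsNorm F) (ε : ℝ) (hε : 0 < ε) :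
    ∃ n₀ : ℕ, ∀ n : ℕ, n₀ ≤ n → ∃ b : Fin (e + 2) → ℤ, ∀ T : ℝ, 0 ≤ T →
      (crit F + ε) * T ^ (e + 2) ≤ n → Adm F n b T := by
  have hne := crit_set_nonempty hF
  have hcrit0 : 0 ≤ crit F := by
    refine Real.sInf_nonneg ?_
    rintro x ⟨M, -, -, rfl⟩
    exact abs_nonneg _
  obtain ⟨x, ⟨M, hM, hM1, rfl⟩, hx⟩ := exists_lt_of_csInf_lt hne
    (show sInf _ < crit F + ε / 4 by unfold crit; linarith)
  obtain ⟨V, D, a, s, hV, hD, ha, hs, hDs, hAdm⟩ := density hF M hM hM1 (ε / 4) (by positivity)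
  obtain ⟨C, hC, hb⟩ := transfer (hF.comp _ (Main.map_unit hV)) D hD a ha s hs.le hAdm
  obtain ⟨dd, hdd⟩ : ∃ dd : ℝ, dd = (e : ℝ) + 2 := ⟨_, rfl⟩
  have hdd2 : 2 ≤ dd := by rw [hdd]; linarith [Nat.cast_nonneg (α := ℝ) e]
  have hdd0 : 0 < dd := by linarith
  obtain ⟨K1, hK1⟩ : ∃ K1 : ℝ, K1 = crit F + ε / 2 := ⟨_, rfl⟩
  obtain ⟨K2, hK2⟩ : ∃ K2 : ℝ, K2 = crit F + ε := ⟨_, rfl⟩
  have hK1p : 0 < K1 := by rw [hK1]; linarith
  have hK12 : K1 < K2 := by rw [hK1, hK2]; linarith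
  have hK2p : 0 < K2 := hK1p.trans hK12
  have hDp : (0 : ℝ) < D := by exact_mod_cast hD
  have hDs' : (D : ℝ) ≤ K1 * s ^ (e + 2) := by
    refine hDs.trans ?_
    apply mul_le_mul_of_nonneg_right _ (by positivity)
    rw [hK1]
    linarith
  -- the gain
  obtain ⟨κ, hκ⟩ : ∃ κ : ℝ, κ = (1 / K1) ^ (1 / dd) - (1 / K2) ^ (1 / dd) := ⟨_, rfl⟩
  have hκ0 : 0 < κ := by
    rw [hκ, sub_pos]
    exact Real.rpow_lt_rpow (by positivity) (one_div_lt_one_div_of_lt hK1p hK12) (by positivity)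
  refine ⟨⌈(C / κ) ^ (3 * dd)⌉₊ + 1, fun n hn => ?_⟩
  have hn1 : 1 ≤ n := by omega
  have hnp : (0 : ℝ) < n := by exact_mod_cast hn1
  obtain ⟨b', hb'⟩ := hb n hn1
  refine ⟨V⁻¹ *ᵥ b', fun T hT hTn => Main.adm_change hV ?_⟩
  have hnC : (C / κ) ^ (3 * dd) ≤ n := by
    have h1 := Nat.le_ceil ((C / κ) ^ (3 * dd))
    have h2 : ((⌈(C / κ) ^ (3 * dd)⌉₊ : ℕ) : ℝ) ≤ n := by exact_mod_cast (by omega)
    exact h1.trans h2
  have hCn : C * (n : ℝ) ^ (2 / (3 * dd)) ≤ κ * (n : ℝ) ^ (1 / dd) := by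
    have h1 : C / κ ≤ (n : ℝ) ^ (1 / (3 * dd)) := by
      have h2 := Real.rpow_le_rpow (by positivity) hnC (show 0 ≤ 1 / (3 * dd) by positivity)
      rwa [← Real.rpow_mul (by positivity), mul_one_div_cancel (by positivity), Real.rpow_one] at h2
    have h2 : (n : ℝ) ^ (1 / dd) = (n : ℝ) ^ (1 / (3 * dd)) * (n : ℝ) ^ (2 / (3 * dd)) := by
      rw [← Real.rpow_add hnp]
      congr 1
      field_simp
      norm_num
    rw [h2, ← mul_assoc]
    apply mul_le_mul_of_nonneg_right _ (by positivity)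
    rw [div_le_iff₀ hκ0] at h1
    linarith
  have hT1 : T ≤ (n : ℝ) ^ (1 / dd) * (1 / K2) ^ (1 / dd) := by
    have h1 : T ^ (e + 2) ≤ n * (1 / K2) := by
      rw [mul_one_div, le_div_iff₀ hK2p]
      rw [hK2]
      linarith
    have h2 := Real.rpow_le_rpow (by positivity) h1 (show 0 ≤ 1 / dd by positivity)
    rw [Real.mul_rpow (by positivity) (by positivity)] at h2
    have h3 : (T ^ (e + 2)) ^ (1 / dd) = T := by
      rw [← Real.rpow_natCast, ← Real.rpow_mul hT]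
      have : ((e + 2 : ℕ) : ℝ) * (1 / dd) = 1 := by
        rw [hdd]
        push_cast
        field_simp
      rw [this, Real.rpow_one]
    rwa [h3] at h2
  have hS1 : (n : ℝ) ^ (1 / dd) * (1 / K1) ^ (1 / dd) ≤ s * ((n : ℝ) / D) ^ (1 / dd) := by
    have h3 : (s ^ (e + 2)) ^ (1 / dd) = s := by
      rw [← Real.rpow_natCast, ← Real.rpow_mul hs.le]
      have : ((e + 2 : ℕ) : ℝ) * (1 / dd) = 1 := by
        rw [hdd]
        push_cast
        field_simp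
      rw [this, Real.rpow_one]
    calc (n : ℝ) ^ (1 / dd) * (1 / K1) ^ (1 / dd) = ((n : ℝ) * (1 / K1)) ^ (1 / dd) :=
          (Real.mul_rpow (by positivity) (by positivity)).symm
      _ ≤ (s ^ (e + 2) * ((n : ℝ) / D)) ^ (1 / dd) := by
          apply Real.rpow_le_rpow (by positivity) _ (by positivity)
          rw [mul_one_div, ← mul_div_assoc, div_le_div_iff₀ hK1p hDp]
          nlinarith
      _ = s * ((n : ℝ) / D) ^ (1 / dd) := by
          rw [Real.mul_rpow (by positivity) (by positivity), h3]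
  have hfin : T ≤ s * ((n : ℝ) / D) ^ ((1 : ℝ) / ((e : ℝ) + 2)) -
        C * (n : ℝ) ^ ((2 : ℝ) / (3 * ((e : ℝ) + 2))) := by
    rw [← hdd]
    have : κ * (n : ℝ) ^ (1 / dd) = (n : ℝ) ^ (1 / dd) * (1 / K1) ^ (1 / dd) -
        (n : ℝ) ^ (1 / dd) * (1 / K2) ^ (1 / dd) := by
      rw [hκ]
      ring
    linarith
  intro w hw hd
  exact hfin.trans (hb' w hw hd)

end CycLat
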