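import Pool.Agent.CycLat.Transfer

/-! # CycLat, module Octa: the critical lattice of the octahedron -/

open Matrix

namespace CycLat

/-- `38 ∣ w₀ + 7 w₁ + 11 w₂`, `w ≠ 0` implies `|w₀| + |w₁| + |w₂| ≥ 6` -/
theorem octa_adm : Adm (l1 : (Fin 3 → ℝ) → ℝ) 38 ![1, 7, 11] 6 := by
  sorry

/-- `6³/38 = 108/19` -/
theorem octa_upper : ∃ C : ℝ, 0 < C ∧ ∀ t : ℝ, 1 ≤ t → ∀ n : ℕ,
    (19 / 108 : ℝ) * t ^ 3 + C * t ^ ((8 : ℝ) / 3) ≤ n →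
    ∃ b : Fin 3 → ℤ, ∀ w : Fin 3 → ℤ, w ≠ 0 → (n : ℤ) ∣ ∑ i, w i * b i →
      t < ∑ i, |(w i : ℝ)| := by
  sorry

end CycLat
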