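import Pool.Agent.CycLat.Span

/-! # CycLat, module OctaA: exact determinants near `diag(1,1,38)` in dimension 3, error `O(√k)` -/

namespace CycLat

theorem disc_ivt (f : ℤ → ℤ) (a b : ℤ) (hab : a ≤ b) (ha : 0 ≤ f a) (hb : f b < 0) :
    ∃ c, a ≤ c ∧ c < b ∧ 0 ≤ f c ∧ f (c + 1) < 0 := by
  classical
  have hex : ∃ k : ℕ, f (a + k) < 0 := ⟨(b - a).toNat, by
    rw [Int.toNat_of_nonneg (by omega)]; simpa using hb⟩
  have hk := Nat.find_spec hex
  have hpos : 0 < Nat.find hex := by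
    rcases Nat.eq_zero_or_pos (Nat.find hex) with h | h
    · rw [h] at hk; simp at hk; omega
    · exact h
  have hmin : ¬ f (a + ((Nat.find hex - 1 : ℕ) : ℤ)) < 0 :=
    Nat.find_min hex (by omega)
  have hle : Nat.find hex ≤ (b - a).toNat := Nat.find_min' hex (by
    rw [Int.toNat_of_nonneg (by omega)]; simpa using hb)
  have hle' : (Nat.find hex : ℤ) ≤ b - a := by
    have : ((Nat.find hex : ℕ) : ℤ) ≤ ((b - a).toNat : ℤ) := by exact_mod_cast hle
    rwa [Int.toNat_of_nonneg (by omega)] at this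
  refine ⟨a + ((Nat.find hex - 1 : ℕ) : ℤ), by omega, by omega, by omega, ?_⟩
  have : a + ((Nat.find hex - 1 : ℕ) : ℤ) + 1 = a + (Nat.find hex : ℕ) := by omega
  rw [this]; exact hk

theorem exists_params (J n : ℤ) (hJ : 1 ≤ J) (h1 : 38 * J ^ 6 ≤ n) (h2 : n < 38 * (J + 1) ^ 6) :
    ∃ γ ρ₁ ρ₀ l δ : ℤ,
      n = (J ^ 2 + 1) * ((38 * (J ^ 2 + 1) + l) * ((J ^ 2 + 1) + γ) + ρ₀ + 38 * J * ρ₁) +
        J * (ρ₁ * l + δ) ∧
      |γ| ≤ 201 * J ∧ |ρ₁| ≤ 60000 * J ∧ |ρ₀| ≤ 38 * J ∧ |l| ≤ 10000 * J ∧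
      |δ| ≤ 7000000 * J := by
  set Y : ℤ := J ^ 2 + 1 with hY
  have hYpos : 0 < Y := by positivity
  have hY1 : J ^ 2 ≤ Y := by omega
  have hY2 : Y ≤ 2 * J ^ 2 := by nlinarith
  set A₂ : ℤ := (-n * J) % Y with hA₂
  have hA0 : 0 ≤ A₂ := Int.emod_nonneg _ hYpos.ne'
  have hA1 : A₂ < Y := Int.emod_lt_of_pos _ hYpos
  have hdiv : Y ∣ n - J * A₂ := by
    have e1 : A₂ = -n * J - Y * ((-n * J) / Y) := by
      have := Int.emod_add_mul_ediv (-n * J) Y
      linarith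
    refine ⟨n + J * ((-n * J) / Y), ?_⟩
    rw [e1, hY]; ring
  obtain ⟨A₁, hA₁⟩ := hdiv
  set N₁ : ℤ := A₁ - 38 * Y ^ 2 with hN₁
  set lam : ℤ := N₁ / Y with hlam
  set ρ : ℤ := N₁ % Y with hρ
  have hρ0 : 0 ≤ ρ := Int.emod_nonneg _ hYpos.ne'
  have hρ1 : ρ < Y := Int.emod_lt_of_pos _ hYpos
  have hN : N₁ = Y * lam + ρ := by
    have := Int.emod_add_mul_ediv N₁ Y
    linarith
  -- bound on `lam`
  have hJ2 : J ≤ J ^ 2 := by nlinarith
  have hJ3 : J ^ 2 ≤ J ^ 3 := by nlinarith [pow_pos (by omega : 0 < J) 2]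
  have hJ4 : J ^ 3 ≤ J ^ 4 := by nlinarith [pow_pos (by omega : 0 < J) 3]
  have hJ5 : J ^ 4 ≤ J ^ 5 := by nlinarith [pow_pos (by omega : 0 < J) 4]
  have hYN : Y * N₁ = n - J * A₂ - 38 * Y ^ 3 := by
    rw [hN₁]; linear_combination -hA₁
  have hJA0 : 0 ≤ J * A₂ := by positivity
  have hJA1 : J * A₂ ≤ 2 * J ^ 3 := by nlinarith
  have hup : Y * N₁ < 2128 * J ^ 5 := by
    have e3 : 38 * (J + 1) ^ 6 - 38 * Y ^ 3 = 38 * (6 * J ^ 5 + 12 * J ^ 4 + 20 * J ^ 3 + 12 * J ^ 2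
        + 6 * J) := by rw [hY]; ring
    nlinarith
  have hlow : -(270 * J ^ 5) ≤ Y * N₁ := by
    have e3 : 38 * J ^ 6 - 38 * Y ^ 3 = -(38 * (3 * J ^ 4 + 3 * J ^ 2 + 1)) := by rw [hY]; ring
    nlinarith
  have hY4 : J ^ 4 ≤ Y ^ 2 := by nlinarith [pow_pos (by omega : 0 < J) 2]
  have hlam1 : lam ≤ 2128 * J := by
    by_contra hcon
    push Not at hcon
    have h3 : Y * N₁ ≥ Y ^ 2 * (2128 * J) := by
      have : N₁ ≥ Y * (2128 * J) := by nlinarith
      nlinarith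
    have h4 : Y ^ 2 * (2128 * J) ≥ J ^ 4 * (2128 * J) := by nlinarith
    nlinarith
  have hlam2 : -(2128 * J) ≤ lam := by
    by_contra hcon
    push Not at hcon
    have h3 : N₁ ≤ Y * (-(2128 * J)) := by nlinarith
    have h4 : Y * N₁ ≤ Y ^ 2 * (-(2128 * J)) := by nlinarith
    have h5 : Y ^ 2 * (2128 * J) ≥ J ^ 4 * (2128 * J) := by nlinarith
    nlinarith [pow_pos (by omega : 0 < J) 5]
  -- the functions
  set q : ℤ → ℤ := fun g => ρ - g * (lam - 38 * g) with hq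
  have hJ38 : (0 : ℤ) < 38 * J := by omega
  have qdiv : ∀ g, q g = 38 * J * (q g / (38 * J)) + q g % (38 * J) := fun g => by
    have := Int.emod_add_mul_ediv (q g) (38 * J)
    linarith
  have qm0 : ∀ g, 0 ≤ q g % (38 * J) := fun g => Int.emod_nonneg _ hJ38.ne'
  have qm1 : ∀ g, q g % (38 * J) < 38 * J := fun g => Int.emod_lt_of_pos _ hJ38
  set f : ℤ → ℤ := fun g => (q g / (38 * J)) * (lam - 38 * g) - A₂ with hf
  -- generic bounds
  have hlam' : |lam| ≤ 2128 * J := abs_le.2 ⟨hlam2, hlam1⟩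
  obtain ⟨γ, hγ1, hγ2, hfγ, hfγ1⟩ := disc_ivt f (-(200 * J)) (200 * J) (by omega) (by
      -- f (-200 J) ≥ 0
      simp only [hf]
      set u := q (-(200 * J)) / (38 * J) with hu
      have h3 := qdiv (-(200 * J))
      have h4 := qm1 (-(200 * J))
      have h5 : q (-(200 * J)) ≥ 1094400 * J ^ 2 := by
        simp only [hq]; nlinarith
      have h6 : 28800 * J < u + 1 := by
        rw [← hu] at h3
        by_contra hcon
        push Not at hcon
        nlinarith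
      have h7 : lam - 38 * (-(200 * J)) ≥ 5472 * J := by nlinarith
      have h8 : 0 ≤ u := by omega
      nlinarith [mul_le_mul (by omega : J ≤ u) h7 (by omega) h8]) (by
      simp only [hf]
      set u := q (200 * J) / (38 * J) with hu
      have h3 := qdiv (200 * J)
      have h4 := qm1 (200 * J)
      have h5 : q (200 * J) ≥ 1094400 * J ^ 2 := by
        simp only [hq]; nlinarith
      have h6 : 28800 * J < u + 1 := by
        rw [← hu] at h3
        by_contra hcon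
        push Not at hcon
        nlinarith
      have h7 : lam - 38 * (200 * J) ≤ -(5472 * J) := by nlinarith
      nlinarith)
  have hqb : ∀ g, |g| ≤ 201 * J → |q g / (38 * J)| ≤ 60000 * J := by
    intro g hg
    rw [abs_le] at hg
    have h3 := qdiv g
    have h4 := qm1 g
    have h4' := qm0 g
    have h5 : q g ≤ 2000000 * J ^ 2 := by
      simp only [hq]
      nlinarith [mul_nonneg (by linarith [hg.1] : 0 ≤ g + 201 * J) (by linarith [hg.2] : 0 ≤ 201 * J - g),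
        mul_nonneg (by linarith [hg.1] : 0 ≤ g + 201 * J) (by linarith : 0 ≤ lam + 2128 * J),
        mul_nonneg (by linarith [hg.2] : 0 ≤ 201 * J - g) (by linarith : 0 ≤ 2128 * J - lam),
        mul_nonneg (by linarith [hg.1] : 0 ≤ g + 201 * J) (by linarith : 0 ≤ 2128 * J - lam),
        mul_nonneg (by linarith [hg.2] : 0 ≤ 201 * J - g) (by linarith : 0 ≤ lam + 2128 * J)]
    have h6 : -(2000000 * J ^ 2) ≤ q g := by
      simp only [hq]
      nlinarith [mul_nonneg (by linarith [hg.1] : 0 ≤ g + 201 * J) (by linarith [hg.2] : 0 ≤ 201 * J - g),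
        mul_nonneg (by linarith [hg.1] : 0 ≤ g + 201 * J) (by linarith : 0 ≤ lam + 2128 * J),
        mul_nonneg (by linarith [hg.2] : 0 ≤ 201 * J - g) (by linarith : 0 ≤ 2128 * J - lam),
        mul_nonneg (by linarith [hg.1] : 0 ≤ g + 201 * J) (by linarith : 0 ≤ 2128 * J - lam),
        mul_nonneg (by linarith [hg.2] : 0 ≤ 201 * J - g) (by linarith : 0 ≤ lam + 2128 * J)]
    rw [abs_le]
    constructor
    · by_contra hcon
      push Not at hcon
      nlinarith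
    · by_contra hcon
      push Not at hcon
      nlinarith
  have hg0 : |γ| ≤ 201 * J := abs_le.2 ⟨by omega, by omega⟩
  have hg1 : |γ + 1| ≤ 201 * J := abs_le.2 ⟨by omega, by omega⟩
  set u₀ := q γ / (38 * J) with hu₀
  set u₁ := q (γ + 1) / (38 * J) with hu₁
  have hu0 := hqb γ hg0
  have hu1 := hqb (γ + 1) hg1
  rw [← hu₀] at hu0
  rw [← hu₁] at hu1
  have hud : |u₀ - u₁| ≤ 460 := by
    have h3 := qdiv γ
    have h4 := qdiv (γ + 1)
    rw [← hu₀] at h3
    rw [← hu₁] at h4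
    have h5 : q (γ + 1) - q γ = 38 * (2 * γ + 1) - lam := by simp only [hq]; ring
    have a1 := qm0 γ
    have a2 := qm1 γ
    have a3 := qm0 (γ + 1)
    have a4 := qm1 (γ + 1)
    rw [abs_le] at hg0 ⊢
    constructor
    · by_contra hcon
      push Not at hcon
      nlinarith
    · by_contra hcon
      push Not at hcon
      nlinarith
  have hl : |lam - 38 * γ| ≤ 10000 * J := by
    rw [abs_le] at hg0 ⊢
    constructor <;> linarith [hg0.1, hg0.2]
  refine ⟨γ, u₀, q γ % (38 * J), lam - 38 * γ, A₂ - u₀ * (lam - 38 * γ), ?_, hg0, hu0, ?_, hl, ?_⟩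
  · have h3 := qdiv γ
    rw [← hu₀] at h3
    have h4 : q γ = ρ - γ * (lam - 38 * γ) := rfl
    have h5 : A₁ = 38 * Y ^ 2 + Y * lam + ρ := by linarith [hN, hN₁]
    have h6 : n = Y * A₁ + J * A₂ := by linarith
    rw [h6, h5]
    rw [h4] at h3
    linear_combination Y * h3
  · rw [abs_of_nonneg (qm0 γ)]
    exact (qm1 γ).le
  · simp only [hf] at hfγ hfγ1
    rw [← hu₀] at hfγ
    rw [← hu₁] at hfγ1
    rw [abs_le] at *
    constructor
    · -- -(7000000 J) ≤ A₂ - u₀ (lam - 38 γ)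
      have h3 : (u₀ - u₁) * (lam - 38 * γ) ≤ 460 * (10000 * J) := by
        have := abs_mul (u₀ - u₁) (lam - 38 * γ)
        have h4 : |u₀ - u₁| * |lam - 38 * γ| ≤ 460 * (10000 * J) :=
          mul_le_mul (abs_le.2 hud) (abs_le.2 hl) (abs_nonneg _) (by norm_num)
        exact (le_abs_self _).trans (this.le.trans h4)
      nlinarith
    · nlinarith [hJA0]

end CycLat
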