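import Pool.Agent.CycLat.OctaA

/-! # CycLat, module OctaB: three elements of `ZMod n` without short relations, for every
`n ≥ (19/108) t³ + C t^(5/2)` -/

open Matrix

namespace CycLat

theorem octa_min_aux : ∀ x ∈ Finset.Icc (-5 : ℤ) 5, ∀ y ∈ Finset.Icc (-5 : ℤ) 5,
    ∀ z ∈ Finset.Icc (-2 : ℤ) 2, ¬ (x = 0 ∧ y = 0 ∧ z = 0) →
    6 ≤ x.natAbs + y.natAbs + (38 * z - 11 * x - 7 * y).natAbs := by
  decide +kernel

theorem octa_min (x y z : ℤ) (h : ¬ (x = 0 ∧ y = 0 ∧ z = 0)) :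
    6 ≤ |x| + |y| + |38 * z - 11 * x - 7 * y| := by
  by_contra hcon
  push Not at hcon
  have n1 := abs_nonneg x
  have n2 := abs_nonneg y
  have n3 := abs_nonneg (38 * z - 11 * x - 7 * y)
  have h1 : |x| ≤ 5 := by omega
  have h2 : |y| ≤ 5 := by omega
  have h3 : |38 * z - 11 * x - 7 * y| ≤ 5 := by omega
  rw [abs_le] at h1 h2 h3
  have := octa_min_aux x (Finset.mem_Icc.2 h1) y (Finset.mem_Icc.2 h2) z
    (Finset.mem_Icc.2 ⟨by omega, by omega⟩) h
  rw [Int.abs_eq_natAbs, Int.abs_eq_natAbs, Int.abs_eq_natAbs] at hcon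
  omega
theorem octa_core (J n : ℤ) (hJ : 1 ≤ J) (h1 : 38 * J ^ 6 ≤ n) (h2 : n < 38 * (J + 1) ^ 6) :
    ∃ b : Fin 3 → ℤ, ∀ w : Fin 3 → ℤ, w ≠ 0 → n ∣ ∑ i, w i * b i →
      6 * J ^ 2 - 1200000000 * J ≤ |w 0| + |w 1| + |w 2| := by
  obtain ⟨γ, r, ρ, l, δ, hn, hγ, hr, hρ, hl, hδ⟩ := exists_params J n hJ h1 h2
  set Y : ℤ := J ^ 2 + 1 with hY
  set N : ℤ := J * r + Y * (Y + γ) with hN
  refine ⟨![-J + 11 * N, Y + 7 * N, N], fun w hw hdvd => ?_⟩
  obtain ⟨z₂, hz⟩ := hdvd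
  simp only [Fin.sum_univ_three, Matrix.cons_val_zero, Matrix.cons_val_one, Matrix.cons_val] at hz
  set a := w 0 with ha
  set b := w 1 with hb
  set c := w 2 with hc
  have hn' : n = δ * J + ρ * Y + (38 * Y + l) * N := by
    rw [hn, hN]; ring
  set z₁ : ℤ := (38 * Y + l) * z₂ - (11 * a + 7 * b + c) with hz₁
  have K0 : -J * (a + δ * z₂) + Y * (b - ρ * z₂) = N * z₁ := by
    rw [hz₁]; rw [hn'] at hz; linear_combination hz
  have K : Y * (b - ρ * z₂ - z₁ * (Y + γ)) = J * (a + δ * z₂ + r * z₁) := by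
    rw [hN] at K0; linear_combination K0
  set z₀ : ℤ := (a + δ * z₂ + r * z₁) - J * (b - ρ * z₂ - z₁ * (Y + γ)) with hz₀
  have A : a = z₀ * Y - r * z₁ - δ * z₂ := by
    have : z₀ * Y = a + δ * z₂ + r * z₁ := by
      rw [hz₀]
      have e1 : ((a + δ * z₂ + r * z₁) - J * (b - ρ * z₂ - z₁ * (Y + γ))) * Y
          = (a + δ * z₂ + r * z₁) * Y - J * (Y * (b - ρ * z₂ - z₁ * (Y + γ))) := by ring
      rw [e1, K, hY]; ring
    linarith
  have B : b = z₀ * J + (Y + γ) * z₁ + ρ * z₂ := by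
    have : z₀ * J = b - ρ * z₂ - z₁ * (Y + γ) := by
      rw [hz₀]
      have e1 : ((a + δ * z₂ + r * z₁) - J * (b - ρ * z₂ - z₁ * (Y + γ))) * J
          = J * (a + δ * z₂ + r * z₁) - J ^ 2 * (b - ρ * z₂ - z₁ * (Y + γ)) := by ring
      rw [e1, ← K, hY]; ring
    linarith
  have Cc : c = -z₁ + (38 * Y + l) * z₂ - 11 * a - 7 * b := by rw [hz₁]; ring
  -- the vector `u`
  set u : ℤ := 38 * z₂ - 11 * z₀ - 7 * z₁ with hu
  have hz0 : ¬ (z₀ = 0 ∧ z₁ = 0 ∧ z₂ = 0) := by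
    rintro ⟨e0, e1, e2⟩
    apply hw
    rw [e0, e1, e2] at A B
    rw [e1, e2] at Cc
    have a0 : a = 0 := by linarith
    have b0 : b = 0 := by linarith
    have c0 : c = 0 := by rw [a0, b0] at Cc; linarith
    ext i
    fin_cases i
    · exact a0
    · exact b0
    · exact c0
  have hU := octa_min z₀ z₁ z₂ hz0
  rw [← hu] at hU
  set U : ℤ := |z₀| + |z₁| + |u| with hUdef
  have hs2 : 3 * |z₂| ≤ U := by
    have e1 : |38 * z₂| ≤ |u| + 11 * |z₀| + 7 * |z₁| := by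
      have e2 : 38 * z₂ = u + 11 * z₀ + 7 * z₁ := by rw [hu]; ring
      rw [e2]
      calc |u + 11 * z₀ + 7 * z₁| ≤ |u + 11 * z₀| + |7 * z₁| := abs_add_le _ _
        _ ≤ |u| + |11 * z₀| + |7 * z₁| := by
            have := abs_add_le u (11 * z₀); linarith
        _ = |u| + 11 * |z₀| + 7 * |z₁| := by rw [abs_mul, abs_mul]; norm_num
    rw [abs_mul] at e1
    have := abs_nonneg z₀
    have := abs_nonneg z₁
    have := abs_nonneg u
    norm_num at e1
    omega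
  have n0 := abs_nonneg z₀
  have n1 := abs_nonneg z₁
  have n2 := abs_nonneg z₂
  have n3 := abs_nonneg u
  set s : ℤ := |z₀| + |z₁| + |z₂| with hs
  have hsU : s ≤ 2 * U := by omega
  have hJ0 : 0 ≤ J := by omega
  have p0 : 0 ≤ J * |z₀| := mul_nonneg hJ0 n0
  have p1 : 0 ≤ J * |z₁| := mul_nonneg hJ0 n1
  have p2 : 0 ≤ J * |z₂| := mul_nonneg hJ0 n2
  have hJs : J * s = J * |z₀| + J * |z₁| + J * |z₂| := by rw [hs]; ring
  have mulle : ∀ (x k z : ℤ), |x| ≤ k * J → 0 ≤ k → |x * z| ≤ k * J * |z| := by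
    intro x k z hx hk
    rw [abs_mul]
    exact mul_le_mul_of_nonneg_right hx (abs_nonneg _)
  have dA : |a - Y * z₀| ≤ 7000000 * J * s := by
    have e1 : a - Y * z₀ = -(r * z₁) - δ * z₂ := by rw [A]; ring
    rw [e1]
    have q1 := mulle r 60000 z₁ hr (by norm_num)
    have q2 := mulle δ 7000000 z₂ hδ (by norm_num)
    calc |-(r * z₁) - δ * z₂| ≤ |-(r * z₁)| + |δ * z₂| := abs_sub _ _
      _ = |r * z₁| + |δ * z₂| := by rw [abs_neg]
      _ ≤ 60000 * J * |z₁| + 7000000 * J * |z₂| := add_le_add q1 q2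
      _ ≤ 7000000 * J * s := by
          have e3 : 7000000 * J * s = 7000000 * (J * s) := by ring
          rw [e3, hJs]
          linarith only [p0, p1, p2]
  have dB : |b - Y * z₁| ≤ 201 * J * s := by
    have e1 : b - Y * z₁ = z₀ * J + γ * z₁ + ρ * z₂ := by rw [B]; ring
    rw [e1]
    have q0 : |z₀ * J| = J * |z₀| := by rw [abs_mul, abs_of_pos (by omega : 0 < J)]; ring
    have q1 := mulle γ 201 z₁ hγ (by norm_num)
    have q2 := mulle ρ 38 z₂ hρ (by norm_num)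
    calc |z₀ * J + γ * z₁ + ρ * z₂| ≤ |z₀ * J + γ * z₁| + |ρ * z₂| := abs_add_le _ _
      _ ≤ |z₀ * J| + |γ * z₁| + |ρ * z₂| := by
          have := abs_add_le (z₀ * J) (γ * z₁); linarith
      _ ≤ J * |z₀| + 201 * J * |z₁| + 38 * J * |z₂| := by rw [q0]; linarith
      _ ≤ 201 * J * s := by
          have e3 : 201 * J * s = 201 * (J * s) := by ring
          rw [e3, hJs]
          linarith only [p0, p1, p2]
  have dC : |c - Y * u| ≤ 78000000 * J * s := by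
    have e1 : c - Y * u = -z₁ + l * z₂ - 11 * (a - Y * z₀) - 7 * (b - Y * z₁) := by
      rw [Cc, hu]; ring
    rw [e1]
    have q1 := mulle l 10000 z₂ hl (by norm_num)
    calc |-z₁ + l * z₂ - 11 * (a - Y * z₀) - 7 * (b - Y * z₁)|
        ≤ |-z₁ + l * z₂ - 11 * (a - Y * z₀)| + |7 * (b - Y * z₁)| := abs_sub _ _
      _ ≤ |-z₁ + l * z₂| + |11 * (a - Y * z₀)| + |7 * (b - Y * z₁)| := by
          have := abs_sub (-z₁ + l * z₂) (11 * (a - Y * z₀)); linarith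
      _ ≤ |z₁| + |l * z₂| + 11 * |a - Y * z₀| + 7 * |b - Y * z₁| := by
          have h3 := abs_add_le (-z₁) (l * z₂)
          rw [abs_neg] at h3
          have h11 : |11 * (a - Y * z₀)| = 11 * |a - Y * z₀| := by rw [abs_mul]; rfl
          have h7 : |7 * (b - Y * z₁)| = 7 * |b - Y * z₁| := by rw [abs_mul]; rfl
          rw [h11, h7]
          linarith
      _ ≤ |z₁| + 10000 * J * |z₂| + 11 * (7000000 * J * s) + 7 * (201 * J * s) := by
          linarith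
      _ ≤ 78000000 * J * s := by
          have e2 : |z₁| ≤ J * |z₁| := le_mul_of_one_le_left n1 hJ
          have e3 : 0 ≤ J * s := by rw [hJs]; linarith only [p0, p1, p2]
          have e4 : 10000 * J * |z₂| + 11 * (7000000 * J * s) + 7 * (201 * J * s) =
            10000 * (J * |z₂|) + 77001407 * (J * s) := by ring
          have e5 : 78000000 * J * s = 78000000 * (J * s) := by ring
          linarith only [e2, e3, e4, e5, hJs, p0, p1, p2]
  have tri : ∀ (x y : ℤ), |y| - |x - y| ≤ |x| := by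
    intro x y
    have := abs_sub_abs_le_abs_sub y x
    rw [abs_sub_comm x y]
    linarith
  have t0 := tri a (Y * z₀)
  have t1 := tri b (Y * z₁)
  have t2 := tri c (Y * u)
  have hYpos : 0 < Y := by positivity
  rw [abs_mul, abs_of_pos hYpos] at t0 t1 t2
  have hsum : Y * U - 86000000 * J * s ≤ |a| + |b| + |c| := by
    have : Y * U = Y * |z₀| + Y * |z₁| + Y * |u| := by rw [hUdef]; ring
    have hs0 : 0 ≤ J * s := by rw [hJs]; linarith only [p0, p1, p2]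
    have e3 : 7000000 * J * s + 201 * J * s + 78000000 * J * s = 85000201 * (J * s) := by ring
    have e4 : 86000000 * J * s = 86000000 * (J * s) := by ring
    linarith only [this, hs0, e3, e4, t0, t1, t2, dA, dB, dC]
  have hsum2 : (Y - 172000000 * J) * U ≤ |a| + |b| + |c| := by
    have h3 : 86000000 * J * s ≤ 86000000 * J * (2 * U) :=
      mul_le_mul_of_nonneg_left hsU (by omega)
    have e3 : (Y - 172000000 * J) * U = Y * U - 86000000 * J * (2 * U) := by ring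
    linarith only [h3, e3, hsum]
  have habs : 0 ≤ |a| + |b| + |c| := by positivity
  rcases le_or_gt 0 (Y - 172000000 * J) with hpos | hneg
  · have h3 : (Y - 172000000 * J) * 6 ≤ (Y - 172000000 * J) * U :=
      mul_le_mul_of_nonneg_left hU hpos
    linarith only [h3, hsum2, hY, hJ]
  · linarith only [hneg, habs, hY, hJ]

theorem octa_upper : ∃ C : ℝ, 0 < C ∧ ∀ t : ℝ, 1 ≤ t → ∀ n : ℕ,
    (19 / 108 : ℝ) * t ^ 3 + C * t ^ ((5 : ℝ) / 2) ≤ n →
    ∃ b : Fin 3 → ℤ, ∀ w : Fin 3 → ℤ, w ≠ 0 → (n : ℤ) ∣ ∑ i, w i * b i →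
      t < ∑ i, |(w i : ℝ)| := by
  obtain ⟨E, hE⟩ : ∃ E : ℝ, E = 1200000000 := ⟨_, rfl⟩
  have hE0 : 0 < E := by rw [hE]; norm_num
  refine ⟨38 + (1 + (E + 3)) ^ 6, by positivity, fun t ht n hn => ?_⟩
  have ht0 : 0 ≤ t := by linarith
  set x := Real.sqrt t with hx
  have hx2 : x ^ 2 = t := Real.sq_sqrt ht0
  have hx1 : 1 ≤ x := by rw [hx]; exact Real.one_le_sqrt.2 ht
  have hx5 : t ^ ((5 : ℝ) / 2) = x ^ 5 := by
    rw [← hx2, ← Real.rpow_natCast x 2, ← Real.rpow_mul (by linarith), ← Real.rpow_natCast x 5]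
    norm_num
  have hx6 : t ^ 3 = x ^ 6 := by rw [← hx2]; ring
  rw [hx5, hx6] at hn
  have hx5' : 1 ≤ x ^ 5 := one_le_pow₀ hx1
  have hn38 : (38 : ℝ) ≤ n := by
    have h6 : 0 ≤ x ^ 6 := by positivity
    have h7 : 0 ≤ (1 + (E + 3)) ^ 6 * x ^ 5 := by positivity
    nlinarith
  have hn38' : 38 ≤ n := by exact_mod_cast hn38
  -- choose J
  obtain ⟨J, hJ1, hJ2, hJ3⟩ : ∃ J : ℕ, 1 ≤ J ∧ 38 * J ^ 6 ≤ n ∧ n < 38 * (J + 1) ^ 6 := by
    classical
    have hex : ∃ k : ℕ, n < 38 * (k + 1) ^ 6 := ⟨n, by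
      have : n + 1 ≤ (n + 1) ^ 6 := Nat.le_self_pow (by norm_num) _
      omega⟩
    refine ⟨Nat.find hex, ?_, ?_, Nat.find_spec hex⟩
    · by_contra hc
      have h0 : Nat.find hex = 0 := by omega
      have := Nat.find_spec hex
      rw [h0] at this
      norm_num at this
      omega
    · by_contra hc
      push Not at hc
      rcases Nat.eq_zero_or_pos (Nat.find hex) with h0 | h0
      · rw [h0] at hc; norm_num at hc
      · have hm := Nat.find_min hex (m := Nat.find hex - 1) (by omega)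
        rw [Nat.sub_add_cancel h0] at hm
        exact hm hc
  obtain ⟨b, hb⟩ := octa_core (J : ℤ) (n : ℤ) (by exact_mod_cast hJ1) (by exact_mod_cast hJ2)
    (by exact_mod_cast hJ3)
  refine ⟨b, fun w hw hd => ?_⟩
  have h1 := hb w hw hd
  have h1' : 6 * (J : ℝ) ^ 2 - E * J ≤ ∑ i, |(w i : ℝ)| := by
    rw [Fin.sum_univ_three, hE]
    exact_mod_cast h1
  refine lt_of_lt_of_le ?_ h1'
  by_contra hcon
  push Not at hcon
  have hJ0 : (1 : ℝ) ≤ J := by exact_mod_cast hJ1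
  obtain ⟨c, hc0, hc2⟩ : ∃ c : ℝ, 0 < c ∧ c ^ 2 = 6 :=
    ⟨Real.sqrt 6, Real.sqrt_pos.2 (by norm_num), Real.sq_sqrt (by norm_num)⟩
  have hc1 : 1 ≤ c := by nlinarith
  have hc3 : c ≤ 3 := by nlinarith
  -- c J ≤ x + E
  have hv : c * J ≤ x + E := by
    by_contra hcc
    push Not at hcc
    have h3 : (c * J) ^ 2 - E * (c * J) ≤ x ^ 2 := by
      have : (c * J) ^ 2 = 6 * (J : ℝ) ^ 2 := by rw [mul_pow, hc2]
      have h4 : E * (J : ℝ) ≤ E * (c * J) := by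
        apply mul_le_mul_of_nonneg_left _ hE0.le
        nlinarith
      rw [this, hx2]; linarith
    nlinarith
  have hJn : (n : ℝ) < 38 * ((J : ℝ) + 1) ^ 6 := by exact_mod_cast hJ3
  have h5 : 216 * ((J : ℝ) + 1) ^ 6 ≤ (x + (E + 3)) ^ 6 := by
    have e1 : 216 * ((J : ℝ) + 1) ^ 6 = (c * (J + 1)) ^ 6 := by
      rw [mul_pow]
      have : c ^ 6 = 216 := by
        have : c ^ 6 = (c ^ 2) ^ 3 := by ring
        rw [this, hc2]; norm_num
      rw [this]
    rw [e1]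
    apply pow_le_pow_left₀ (by positivity)
    linarith
  have h6 : (x + (E + 3)) ^ 6 ≤ x ^ 6 + x ^ 5 * (1 + (E + 3)) ^ 6 := by
    obtain ⟨G, hG⟩ : ∃ G : ℝ, G = E + 3 := ⟨_, rfl⟩
    have hG0 : 0 < G := by rw [hG]; linarith
    rw [← hG]
    have p : ∀ k : ℕ, k ≤ 5 → x ^ k ≤ x ^ 5 := fun k hk => pow_le_pow_right₀ hx1 hk
    have p0 := p 0 (by norm_num)
    have p1 := p 1 (by norm_num)
    have p2 := p 2 (by norm_num)
    have p3 := p 3 (by norm_num)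
    have p4 := p 4 (by norm_num)
    have e1 : (x + G) ^ 6 = x ^ 6 + (6 * G * x ^ 5 + 15 * G ^ 2 * x ^ 4 + 20 * G ^ 3 * x ^ 3 +
        15 * G ^ 4 * x ^ 2 + 6 * G ^ 5 * x ^ 1 + G ^ 6 * x ^ 0) := by ring
    have e2 : x ^ 5 * (1 + G) ^ 6 = x ^ 5 + (6 * G * x ^ 5 + 15 * G ^ 2 * x ^ 5 + 20 * G ^ 3 * x ^ 5 +
        15 * G ^ 4 * x ^ 5 + 6 * G ^ 5 * x ^ 5 + G ^ 6 * x ^ 5) := by ring
    rw [e1, e2]
    have q4 : 15 * G ^ 2 * x ^ 4 ≤ 15 * G ^ 2 * x ^ 5 := mul_le_mul_of_nonneg_left p4 (by positivity)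
    have q3 : 20 * G ^ 3 * x ^ 3 ≤ 20 * G ^ 3 * x ^ 5 := mul_le_mul_of_nonneg_left p3 (by positivity)
    have q2 : 15 * G ^ 4 * x ^ 2 ≤ 15 * G ^ 4 * x ^ 5 := mul_le_mul_of_nonneg_left p2 (by positivity)
    have q1 : 6 * G ^ 5 * x ^ 1 ≤ 6 * G ^ 5 * x ^ 5 := mul_le_mul_of_nonneg_left p1 (by positivity)
    have q0 : G ^ 6 * x ^ 0 ≤ G ^ 6 * x ^ 5 := mul_le_mul_of_nonneg_left p0 (by positivity)
    linarith
  have h7 : 0 ≤ (1 + (E + 3)) ^ 6 * x ^ 5 := by positivity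
  nlinarith

end CycLat
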