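import Pool.Agent.CycLat.Def

/-! # CycLat, module Span: bases of the lattices `{w : N ∣ w · m}`, built one row at a time -/

open Matrix

namespace CycLat

variable {d : ℕ}

/-- The rows of `B` span `{w : N ∣ w · m}`, and `B m = N e_last`. -/
structure Span (B : Matrix (Fin (d + 1)) (Fin (d + 1)) ℤ) (m : Fin (d + 1) → ℤ) (N : ℤ) :
    Prop where
  ne : N ≠ 0
  row : ∀ i, ∑ j, B i j * m j = if i = Fin.last d then N else 0
  span : ∀ w : Fin (d + 1) → ℤ, N ∣ ∑ j, w j * m j →
    ∃ z : Fin (d + 1) → ℤ, ∀ j, w j = ∑ i, z i * B i j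

/-- the matrix `[[B, -e_last], [u, Y]]` -/
def ext (B : Matrix (Fin (d + 1)) (Fin (d + 1)) ℤ) (u : Fin (d + 1) → ℤ) (Y : ℤ) :
    Matrix (Fin (d + 2)) (Fin (d + 2)) ℤ :=
  Fin.snoc (fun i => Fin.snoc (B i) (if i = Fin.last d then (-1 : ℤ) else 0)) (Fin.snoc u Y)

theorem ext_castSucc_castSucc (B : Matrix (Fin (d + 1)) (Fin (d + 1)) ℤ) (u : Fin (d + 1) → ℤ)
    (Y : ℤ) (i j : Fin (d + 1)) : CycLat.ext B u Y i.castSucc j.castSucc = B i j := by
  simp [CycLat.ext]

theorem ext_castSucc_last (B : Matrix (Fin (d + 1)) (Fin (d + 1)) ℤ) (u : Fin (d + 1) → ℤ)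
    (Y : ℤ) (i : Fin (d + 1)) :
    CycLat.ext B u Y i.castSucc (Fin.last (d + 1)) = if i = Fin.last d then -1 else 0 := by
  simp [CycLat.ext]

theorem ext_last_castSucc (B : Matrix (Fin (d + 1)) (Fin (d + 1)) ℤ) (u : Fin (d + 1) → ℤ)
    (Y : ℤ) (j : Fin (d + 1)) : CycLat.ext B u Y (Fin.last (d + 1)) j.castSucc = u j := by
  simp [CycLat.ext]

theorem ext_last_last (B : Matrix (Fin (d + 1)) (Fin (d + 1)) ℤ) (u : Fin (d + 1) → ℤ)
    (Y : ℤ) : CycLat.ext B u Y (Fin.last (d + 1)) (Fin.last (d + 1)) = Y := by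
  simp [CycLat.ext]

theorem Span.ext {B : Matrix (Fin (d + 1)) (Fin (d + 1)) ℤ} {m : Fin (d + 1) → ℤ} {N : ℤ}
    (h : Span B m N) (u : Fin (d + 1) → ℤ) (Y N' : ℤ) (hN' : N' = ∑ j, u j * m j + Y * N)
    (hne : N' ≠ 0) : Span (CycLat.ext B u Y) (Fin.snoc m N) N' := by
  refine ⟨hne, ?_, ?_⟩
  · intro i
    rw [Fin.sum_univ_castSucc]
    refine Fin.lastCases ?_ (fun i => ?_) i
    · simp only [ext_last_castSucc, ext_last_last, Fin.snoc_castSucc, Fin.snoc_last, if_true]
      rw [hN']
    · simp only [ext_castSucc_castSucc, ext_castSucc_last, Fin.snoc_castSucc, Fin.snoc_last]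
      rw [h.row i, if_neg (Fin.castSucc_lt_last i).ne]
      split_ifs <;> ring
  · intro w hw
    rw [Fin.sum_univ_castSucc] at hw
    simp only [Fin.snoc_castSucc, Fin.snoc_last] at hw
    obtain ⟨t, ht⟩ := hw
    have h1 : ∑ j, (w (Fin.castSucc j) - t * u j) * m j = N * (t * Y - w (Fin.last (d + 1))) := by
      have : ∑ j, (w (Fin.castSucc j) - t * u j) * m j
          = ∑ j, w (Fin.castSucc j) * m j - t * ∑ j, u j * m j := by
        rw [Finset.mul_sum, ← Finset.sum_sub_distrib]
        refine Finset.sum_congr rfl fun j _ => ?_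
        ring
      rw [this]
      rw [hN'] at ht
      linear_combination ht
    obtain ⟨z, hz⟩ := h.span (fun j => w (Fin.castSucc j) - t * u j) ⟨_, h1⟩
    have h2 : z (Fin.last d) = t * Y - w (Fin.last (d + 1)) := by
      have h3 : ∑ j, (w (Fin.castSucc j) - t * u j) * m j = z (Fin.last d) * N := by
        calc ∑ j, (w (Fin.castSucc j) - t * u j) * m j
            = ∑ j, (∑ i, z i * B i j) * m j := by
              refine Finset.sum_congr rfl fun j _ => ?_
              rw [← hz j]
          _ = ∑ i, z i * ∑ j, B i j * m j := by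
              simp only [Finset.sum_mul, Finset.mul_sum]
              rw [Finset.sum_comm]
              refine Finset.sum_congr rfl fun i _ => Finset.sum_congr rfl fun j _ => ?_
              ring
          _ = z (Fin.last d) * N := by
              simp only [h.row, mul_ite, mul_zero, Finset.sum_ite_eq', Finset.mem_univ, if_true]
      rw [h1] at h3
      have := mul_left_cancel₀ h.ne (h3.trans (mul_comm _ _))
      exact this.symm
    refine ⟨Fin.snoc z t, fun j => ?_⟩
    rw [Fin.sum_univ_castSucc]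
    refine Fin.lastCases ?_ (fun j => ?_) j
    · simp only [ext_castSucc_last, ext_last_last, Fin.snoc_castSucc, Fin.snoc_last]
      simp only [mul_ite, mul_neg, mul_one, mul_zero, Finset.sum_ite_eq', Finset.mem_univ, if_true]
      rw [h2]; ring
    · simp only [ext_castSucc_castSucc, ext_last_castSucc, Fin.snoc_castSucc, Fin.snoc_last]
      rw [← hz j]; ring

end CycLat
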