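import Pool.Agent.CycLat.Core
import Pool.Agent.CycLat.Norm

/-! # CycLat, module Transfer: from one cyclic lattice to all indices -/

open Matrix

namespace CycLat

/-- transfer theorem -/
theorem transfer {e : ℕ} {F : (Fin (e + 2) → ℝ) → ℝ} (hF : IsNorm F) (D : ℕ) (hD : 1 ≤ D)
    (a : Fin (e + 2) → ℤ) (ha : a 0 = 1) (T : ℝ) (hT : 0 ≤ T) (h : Adm F D a T) :
    ∃ C : ℝ, 0 < C ∧ ∀ n : ℕ, 1 ≤ n → ∃ b : Fin (e + 2) → ℤ,
      Adm F n b (T * ((n : ℝ) / D) ^ ((1 : ℝ) / ((e : ℝ) + 2)) -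
        C * (n : ℝ) ^ ((2 : ℝ) / (3 * ((e : ℝ) + 2)))) := by
  sorry

end CycLat
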